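import Mathlib

open MeasureTheory Set Real

namespace Pool.Agent.R755.Xp

/-- domination by `C/(1+x²)`. -/
theorem dom {f : ℝ → ℝ} (hf : Continuous f) (C : ℝ)
    (h : ∀ x, 0 < x → |f x| ≤ C * (1 + x ^ 2)⁻¹) : IntegrableOn f (Ioi 0) := by
  have hi : IntegrableOn (fun x : ℝ => C * (1 + x ^ 2)⁻¹) (Ioi 0) :=
    (integrable_inv_one_add_sq.const_mul C).integrableOn
  refine Integrable.mono' hi hf.aestronglyMeasurable ?_
  rw [ae_restrict_iff' measurableSet_Ioi]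
  exact Filter.Eventually.of_forall (fun x hx => by
    rw [Real.norm_eq_abs]; exact h x hx)

theorem tail_ge {a s : ℝ} : 1 ≤ 1 + a ^ 2 * s ^ 2 := by nlinarith [sq_nonneg (a * s)]

theorem tail_pos {a s : ℝ} : 0 < 1 + a ^ 2 * s ^ 2 := lt_of_lt_of_le one_pos tail_ge

theorem tail_inv_le {a s : ℝ} : (1 + a ^ 2 * s ^ 2)⁻¹ ≤ 1 :=
  inv_le_one_of_one_le₀ tail_ge

theorem tail_inv_pos {a s : ℝ} : 0 < (1 + a ^ 2 * s ^ 2)⁻¹ := inv_pos.2 tail_pos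

theorem cont_tail (a : ℝ) : Continuous fun s : ℝ => (1 + a ^ 2 * s ^ 2)⁻¹ :=
  Continuous.inv₀ (by fun_prop) (fun s => tail_pos.ne')

/-- `(1+a²s²)⁻¹ ≤ C (1+s²)⁻¹` with `C = 1 + 1/a²`. -/
theorem tail_dom {a s : ℝ} (ha : a ≠ 0) :
    (1 + a ^ 2 * s ^ 2)⁻¹ ≤ (1 + (a ^ 2)⁻¹) * (1 + s ^ 2)⁻¹ := by
  have ha2 : 0 < a ^ 2 := by positivity
  have h1 : (0:ℝ) < 1 + s ^ 2 := by positivity
  rw [inv_le_iff_one_le_mul₀ tail_pos]
  have h2 : (1 + (a ^ 2)⁻¹) * (1 + s ^ 2)⁻¹ * (1 + a ^ 2 * s ^ 2) =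
      ((1 + (a ^ 2)⁻¹) * (1 + a ^ 2 * s ^ 2)) / (1 + s ^ 2) := by
    field_simp
  rw [h2, le_div_iff₀ h1]
  have h3 : (1 + (a ^ 2)⁻¹) * (1 + a ^ 2 * s ^ 2) = 1 + s ^ 2 + a ^ 2 * s ^ 2 + (a^2)⁻¹ := by
    field_simp
    ring
  rw [h3]
  have : 0 < (a^2)⁻¹ := inv_pos.2 ha2
  nlinarith [sq_nonneg (a * s)]

theorem K1 {x : ℝ} (hx : 0 < x) : ∫ s in Ioi (0:ℝ), (1 + x ^ 2 * s ^ 2)⁻¹ = π / (2 * x) := by
  have h := integral_comp_mul_left_Ioi (fun t : ℝ => (1 + t ^ 2)⁻¹) 0 hx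
  simp only [mul_zero, integral_Ioi_inv_one_add_sq, Real.arctan_zero, sub_zero, smul_eq_mul,
    mul_pow] at h
  rw [h]
  field_simp

theorem int_tail {x : ℝ} (hx : x ≠ 0) :
    IntegrableOn (fun s : ℝ => (1 + x ^ 2 * s ^ 2)⁻¹) (Ioi 0) := by
  refine dom (cont_tail x) (1 + (x ^ 2)⁻¹) (fun s _ => ?_)
  rw [abs_of_pos tail_inv_pos]
  exact tail_dom hx

theorem K2ne {x y : ℝ} (hx : 0 < x) (hy : 0 ≤ y) (hxy : x ≠ y) :
    ∫ s in Ioi (0:ℝ), (1 + x ^ 2 * s ^ 2)⁻¹ * (1 + y ^ 2 * s ^ 2)⁻¹ = π / (2 * (x + y)) := by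
  rcases hy.eq_or_lt with h0 | hy
  · subst h0
    simp only [ne_eq, OfNat.ofNat_ne_zero, not_false_eq_true, zero_pow, zero_mul, add_zero,
      inv_one, mul_one]
    exact K1 hx
  · have hne : x ^ 2 - y ^ 2 ≠ 0 := by
      have : x ^ 2 - y ^ 2 = (x - y) * (x + y) := by ring
      rw [this]
      exact mul_ne_zero (sub_ne_zero.2 hxy) (by positivity)
    have he : ∀ s : ℝ, (1 + x ^ 2 * s ^ 2)⁻¹ * (1 + y ^ 2 * s ^ 2)⁻¹ =
        (x ^ 2 / (x ^ 2 - y ^ 2)) * (1 + x ^ 2 * s ^ 2)⁻¹ -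
          (y ^ 2 / (x ^ 2 - y ^ 2)) * (1 + y ^ 2 * s ^ 2)⁻¹ := by
      intro s
      have h1 : (1 + x ^ 2 * s ^ 2) ≠ 0 := tail_pos.ne'
      have h2 : (1 + y ^ 2 * s ^ 2) ≠ 0 := tail_pos.ne'
      field_simp
      ring
    simp only [he]
    rw [integral_sub ((int_tail hx.ne').const_mul _) ((int_tail hy.ne').const_mul _),
      integral_const_mul, integral_const_mul, K1 hx, K1 hy]
    have h3 : x + y ≠ 0 := by positivity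
    field_simp
    ring

/-- the derivative identity giving `∫(1+x²)^{-(k+1)}` from `∫(1+x²)^{-k}`. -/
theorem hasDeriv_x (k : ℕ) (x : ℝ) :
    HasDerivAt (fun x : ℝ => x * ((1 + x ^ 2) ^ (k + 1))⁻¹)
      ((2 * k + 2) * ((1 + x ^ 2) ^ (k + 2))⁻¹ - (2 * k + 1) * ((1 + x ^ 2) ^ (k + 1))⁻¹) x := by
  have h1 : (1 + x ^ 2 : ℝ) ≠ 0 := by positivity
  have h2 : HasDerivAt (fun x : ℝ => (1 + x ^ 2) ^ (k + 1))
      (((k + 1 : ℕ) : ℝ) * (1 + x ^ 2) ^ k * (2 * x)) x := by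
    have h3 : HasDerivAt (fun x : ℝ => 1 + x ^ 2) (2 * x) x := by
      have := (hasDerivAt_pow 2 x).const_add 1
      simpa using this
    have := h3.fun_pow (k + 1)
    simpa using this
  have h4 := (hasDerivAt_id' x).fun_mul (h2.fun_inv (pow_ne_zero _ h1))
  refine h4.congr_deriv ?_
  have h5 : (1 + x ^ 2 : ℝ) ^ (k + 1) ≠ 0 := pow_ne_zero _ h1
  push_cast
  have e1 : (1 + x ^ 2 : ℝ) ^ (k + 2) = (1 + x ^ 2) ^ k * (1 + x ^ 2) ^ 2 := by ring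
  have e2 : (1 + x ^ 2 : ℝ) ^ (k + 1) = (1 + x ^ 2) ^ k * (1 + x ^ 2) := by ring
  have h6 : (1 + x ^ 2 : ℝ) ^ k ≠ 0 := pow_ne_zero _ h1
  rw [e1, e2]
  field_simp
  ring

theorem pow_inv_dom (k : ℕ) (x : ℝ) : ((1 + x ^ 2) ^ (k + 1))⁻¹ ≤ (1 + x ^ 2)⁻¹ := by
  have h1 : (1:ℝ) ≤ 1 + x ^ 2 := by nlinarith [sq_nonneg x]
  refine inv_anti₀ (by positivity) ?_
  calc (1 + x ^ 2 : ℝ) = (1 + x ^ 2) ^ 1 := (pow_one _).symm
    _ ≤ (1 + x ^ 2) ^ (k + 1) := pow_le_pow_right₀ h1 (by omega)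

theorem int_pow (k : ℕ) : IntegrableOn (fun x : ℝ => ((1 + x ^ 2) ^ (k + 1))⁻¹) (Ioi 0) := by
  refine dom (Continuous.inv₀ (by fun_prop) (fun s => by positivity)) 1 (fun s _ => ?_)
  rw [abs_of_pos (by positivity), one_mul]
  exact pow_inv_dom k s

theorem tendsto_x (k : ℕ) :
    Filter.Tendsto (fun x : ℝ => x * ((1 + x ^ 2) ^ (k + 1))⁻¹) Filter.atTop (nhds 0) := by
  have h1 : Filter.Tendsto (fun x : ℝ => x⁻¹) Filter.atTop (nhds 0) := tendsto_inv_atTop_zero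
  refine squeeze_zero' ?_ ?_ h1
  · filter_upwards [Filter.eventually_gt_atTop 0] with x hx
    positivity
  · filter_upwards [Filter.eventually_gt_atTop 0] with x hx
    have := pow_inv_dom k x
    calc x * ((1 + x ^ 2) ^ (k + 1))⁻¹ ≤ x * (1 + x ^ 2)⁻¹ := by gcongr
      _ ≤ x * (x ^ 2)⁻¹ := by
          gcongr
          linarith
      _ = x⁻¹ := by field_simp

theorem Brec (k : ℕ) : (2 * (k:ℝ) + 2) * (∫ x in Ioi (0:ℝ), ((1 + x ^ 2) ^ (k + 2))⁻¹) =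
    (2 * (k:ℝ) + 1) * ∫ x in Ioi (0:ℝ), ((1 + x ^ 2) ^ (k + 1))⁻¹ := by
  have h := integral_Ioi_of_hasDerivAt_of_tendsto' (a := 0) (m := 0)
    (fun x _ => hasDeriv_x k x)
    (((int_pow (k + 1)).const_mul (2 * (k:ℝ) + 2)).sub ((int_pow k).const_mul (2 * (k:ℝ) + 1)))
    (tendsto_x k)
  rw [integral_sub ((int_pow (k + 1)).const_mul (2 * (k:ℝ) + 2))
    ((int_pow k).const_mul (2 * (k:ℝ) + 1)), integral_const_mul, integral_const_mul] at h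
  simp only [zero_mul, sub_zero] at h
  linarith

theorem B1 : ∫ x in Ioi (0:ℝ), ((1 + x ^ 2) ^ 1)⁻¹ = π / 2 := by
  simp only [pow_one]
  rw [integral_Ioi_inv_one_add_sq, Real.arctan_zero, sub_zero]

theorem B2 : ∫ x in Ioi (0:ℝ), ((1 + x ^ 2) ^ 2)⁻¹ = π / 4 := by
  have h := Brec 0
  have h1 := B1
  simp only [Nat.cast_zero, mul_zero, zero_add] at h
  rw [h1] at h
  linarith

theorem B3 : ∫ x in Ioi (0:ℝ), ((1 + x ^ 2) ^ 3)⁻¹ = 3 * π / 16 := by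
  have h := Brec 1
  have h1 := B2
  norm_num at h
  rw [h1] at h
  linarith

theorem B4 : ∫ x in Ioi (0:ℝ), ((1 + x ^ 2) ^ 4)⁻¹ = 5 * π / 32 := by
  have h := Brec 2
  have h1 := B3
  norm_num at h
  rw [h1] at h
  linarith

theorem B5 : ∫ x in Ioi (0:ℝ), ((1 + x ^ 2) ^ 5)⁻¹ = 35 * π / 256 := by
  have h := Brec 3
  have h1 := B4
  norm_num at h
  rw [h1] at h
  linarith

theorem K2eq {x : ℝ} (hx : 0 < x) :
    ∫ s in Ioi (0:ℝ), (1 + x ^ 2 * s ^ 2)⁻¹ * (1 + x ^ 2 * s ^ 2)⁻¹ = π / (2 * (x + x)) := by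
  have h := integral_comp_mul_left_Ioi (fun t : ℝ => ((1 + t ^ 2) ^ 2)⁻¹) 0 hx
  simp only [mul_zero, B2, smul_eq_mul, mul_pow] at h
  have he : ∀ s : ℝ, (1 + x ^ 2 * s ^ 2)⁻¹ * (1 + x ^ 2 * s ^ 2)⁻¹ =
      ((1 + x ^ 2 * s ^ 2) ^ 2)⁻¹ := by
    intro s; rw [← mul_inv]; ring_nf
  simp only [he]
  rw [h]
  field_simp
  ring

theorem K2 {x y : ℝ} (hx : 0 < x) (hy : 0 ≤ y) :
    ∫ s in Ioi (0:ℝ), (1 + x ^ 2 * s ^ 2)⁻¹ * (1 + y ^ 2 * s ^ 2)⁻¹ = π / (2 * (x + y)) := by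
  rcases eq_or_ne x y with h | h
  · subst h; exact K2eq hx
  · exact K2ne hx hy h

theorem int_tail2 {x : ℝ} (y : ℝ) (hx : x ≠ 0) :
    IntegrableOn (fun s : ℝ => (1 + x ^ 2 * s ^ 2)⁻¹ * (1 + y ^ 2 * s ^ 2)⁻¹) (Ioi 0) := by
  refine dom ((cont_tail x).mul (cont_tail y)) (1 + (x ^ 2)⁻¹) (fun s _ => ?_)
  rw [abs_of_pos (mul_pos tail_inv_pos tail_inv_pos)]
  calc (1 + x ^ 2 * s ^ 2)⁻¹ * (1 + y ^ 2 * s ^ 2)⁻¹ ≤ (1 + x ^ 2 * s ^ 2)⁻¹ * 1 := by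
        exact mul_le_mul_of_nonneg_left tail_inv_le tail_inv_pos.le
    _ ≤ _ := by rw [mul_one]; exact tail_dom hx

/-- triple integral, first form. -/
theorem J0 {x y z : ℝ} (hx : 0 < x) (hy : 0 ≤ y) (hz : 0 ≤ z) (hyz : y ≠ z) :
    ∫ s in Ioi (0:ℝ), (1 + x ^ 2 * s ^ 2)⁻¹ * (1 + y ^ 2 * s ^ 2)⁻¹ * (1 + z ^ 2 * s ^ 2)⁻¹ =
      π / 2 * ((x * y + y * z + z * x) / ((x + y) * (y + z) * (z + x))) := by
  have hyz' : 0 < y + z := by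
    rcases hy.eq_or_lt with h | h
    · rcases hz.eq_or_lt with h' | h'
      · exact absurd (h.symm.trans h') hyz
      · linarith
    · linarith
  have hne : y ^ 2 - z ^ 2 ≠ 0 := by
    have : y ^ 2 - z ^ 2 = (y - z) * (y + z) := by ring
    rw [this]
    exact mul_ne_zero (sub_ne_zero.2 hyz) hyz'.ne'
  have he : ∀ s : ℝ,
      (1 + x ^ 2 * s ^ 2)⁻¹ * (1 + y ^ 2 * s ^ 2)⁻¹ * (1 + z ^ 2 * s ^ 2)⁻¹ =
      (y ^ 2 / (y ^ 2 - z ^ 2)) * ((1 + x ^ 2 * s ^ 2)⁻¹ * (1 + y ^ 2 * s ^ 2)⁻¹) -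
        (z ^ 2 / (y ^ 2 - z ^ 2)) * ((1 + x ^ 2 * s ^ 2)⁻¹ * (1 + z ^ 2 * s ^ 2)⁻¹) := by
    intro s
    have h1 : (1 + x ^ 2 * s ^ 2) ≠ 0 := tail_pos.ne'
    have h2 : (1 + y ^ 2 * s ^ 2) ≠ 0 := tail_pos.ne'
    have h3 : (1 + z ^ 2 * s ^ 2) ≠ 0 := tail_pos.ne'
    field_simp
    ring
  simp only [he]
  rw [integral_sub ((int_tail2 y hx.ne').const_mul _) ((int_tail2 z hx.ne').const_mul _),
    integral_const_mul, integral_const_mul, K2 hx hy, K2 hx hz]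
  have h3 : x + y ≠ 0 := by positivity
  have h4 : x + z ≠ 0 := by positivity
  have h5 : y + z ≠ 0 := hyz'.ne'
  have h6 : z + x ≠ 0 := by positivity
  have h7 : y - z ≠ 0 := sub_ne_zero.2 hyz
  have h8 : y ^ 2 - z ^ 2 = (y - z) * (y + z) := by ring
  rw [h8]
  field_simp
  ring

/-- triple integral for nonnegative triples with at least two positive, not all equal. -/
theorem J {x y z : ℝ} (hx : 0 ≤ x) (hy : 0 ≤ y) (hz : 0 ≤ z)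
    (h2 : 0 < x * y + y * z + z * x) (hne : ¬ (x = y ∧ y = z)) :
    ∫ s in Ioi (0:ℝ), (1 + x ^ 2 * s ^ 2)⁻¹ * (1 + y ^ 2 * s ^ 2)⁻¹ * (1 + z ^ 2 * s ^ 2)⁻¹ =
      π / 2 * ((x * y + y * z + z * x) / ((x + y) * (y + z) * (z + x))) := by
  by_cases hyz : y = z
  · have hxy : x ≠ z := fun h => hne ⟨h.trans hyz.symm, hyz⟩
    have hy0 : 0 < y := by
      rcases hy.eq_or_lt with h | h
      · subst hyz; rw [← h] at h2; simp at h2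
      · exact h
    have := J0 hy0 hx hz hxy
    have e : ∀ s : ℝ,
      (1 + x ^ 2 * s ^ 2)⁻¹ * (1 + y ^ 2 * s ^ 2)⁻¹ * (1 + z ^ 2 * s ^ 2)⁻¹ =
      (1 + y ^ 2 * s ^ 2)⁻¹ * (1 + x ^ 2 * s ^ 2)⁻¹ * (1 + z ^ 2 * s ^ 2)⁻¹ := by
      intro s; ring
    simp only [e]
    rw [this]
    congr 1
    congr 1
    · ring
    · ring
  · rcases hx.eq_or_lt with h | h
    · subst h
      have hy0 : 0 < y := by
        rcases hy.eq_or_lt with h | h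
        · rw [← h] at h2; simp at h2
        · exact h
      have hz0 : 0 < z := by
        rcases hz.eq_or_lt with h | h
        · rw [← h] at h2; simp at h2
        · exact h
      have := J0 hy0 le_rfl hz0.le hz0.ne
      have e : ∀ s : ℝ,
        (1 + 0 ^ 2 * s ^ 2)⁻¹ * (1 + y ^ 2 * s ^ 2)⁻¹ * (1 + z ^ 2 * s ^ 2)⁻¹ =
        (1 + y ^ 2 * s ^ 2)⁻¹ * (1 + (0:ℝ) ^ 2 * s ^ 2)⁻¹ * (1 + z ^ 2 * s ^ 2)⁻¹ := by
        intro s; ring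
      simp only [e]
      rw [this]
      congr 1
      congr 1
      · ring
      · ring
    · exact J0 h hy hz hyz

end Pool.Agent.R755.Xp
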