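import Mathlib
import Pool.Agent.R755.Xp.Int

open MeasureTheory Set Real

namespace Pool.Agent.R755.Xp

variable {ι : Type*} [Fintype ι] [DecidableEq ι]

/-- one factor -/
noncomputable def f (x s : ℝ) : ℝ := (1 + x ^ 2 * s ^ 2)⁻¹

theorem f_pos (x s : ℝ) : 0 < f x s := tail_inv_pos
theorem f_le (x s : ℝ) : f x s ≤ 1 := tail_inv_le
theorem f_cont (x : ℝ) : Continuous (f x) := cont_tail x
theorem f_zero (s : ℝ) : f 0 s = 1 := by simp [f]
theorem f_anti (x : ℝ) {s t : ℝ} (hs : 0 ≤ s) (hst : s ≤ t) : f x t ≤ f x s := by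
  unfold f
  refine inv_anti₀ tail_pos ?_
  gcongr

theorem f_neg (x s : ℝ) : f (-x) s = f x s := by unfold f; rw [neg_sq]

/-- product over a finset -/
noncomputable def R (T : Finset ι) (a : ι → ℝ) (s : ℝ) : ℝ := ∏ l ∈ T, f (a l) s

omit [Fintype ι] [DecidableEq ι] in
theorem R_pos (T : Finset ι) (a : ι → ℝ) (s : ℝ) : 0 < R T a s :=
  Finset.prod_pos (fun _ _ => f_pos _ _)
omit [Fintype ι] [DecidableEq ι] in
theorem R_le (T : Finset ι) (a : ι → ℝ) (s : ℝ) : R T a s ≤ 1 :=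
  Finset.prod_le_one (fun _ _ => (f_pos _ _).le) (fun _ _ => f_le _ _)
omit [Fintype ι] [DecidableEq ι] in
theorem R_cont (T : Finset ι) (a : ι → ℝ) : Continuous (R T a) :=
  continuous_finsetProd _ (fun _ _ => f_cont _)
omit [Fintype ι] [DecidableEq ι] in
theorem R_anti (T : Finset ι) (a : ι → ℝ) {s t : ℝ} (hs : 0 ≤ s) (hst : s ≤ t) :
    R T a t ≤ R T a s :=
  Finset.prod_le_prod (fun _ _ => (f_pos _ _).le) (fun _ _ => f_anti _ hs hst)

/-- the section integrand -/
noncomputable def P (a : ι → ℝ) (s : ℝ) : ℝ := ∏ i, f (a i) s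

/-- the section integral -/
noncomputable def I (a : ι → ℝ) : ℝ := ∫ s in Ioi (0:ℝ), P a s

omit [Fintype ι] [DecidableEq ι] in
theorem one_add_sum_le (T : Finset ι) (a : ι → ℝ) (s : ℝ) :
    1 + (∑ i ∈ T, a i ^ 2) * s ^ 2 ≤ ∏ i ∈ T, (1 + a i ^ 2 * s ^ 2) := by
  classical
  induction T using Finset.induction_on with
  | empty => simp
  | insert i T hi ih =>
    rw [Finset.sum_insert hi, Finset.prod_insert hi]
    have h1 : (0:ℝ) ≤ (∑ i ∈ T, a i ^ 2) * s ^ 2 := by positivity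
    have h2 : (0:ℝ) ≤ a i ^ 2 * s ^ 2 := by positivity
    calc 1 + (a i ^ 2 + ∑ i ∈ T, a i ^ 2) * s ^ 2 ≤
        (1 + a i ^ 2 * s ^ 2) * (1 + (∑ i ∈ T, a i ^ 2) * s ^ 2) := by nlinarith [mul_nonneg h1 h2]
      _ ≤ _ := mul_le_mul_of_nonneg_left ih (by positivity)

omit [DecidableEq ι] in
theorem P_eq (a : ι → ℝ) (s : ℝ) : P a s = (∏ i, (1 + a i ^ 2 * s ^ 2))⁻¹ := by
  unfold P f
  rw [Finset.prod_inv_distrib]

omit [DecidableEq ι] in
theorem P_le (a : ι → ℝ) (s : ℝ) : P a s ≤ (1 + (∑ i, a i ^ 2) * s ^ 2)⁻¹ := by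
  rw [P_eq]
  exact inv_anti₀ (by positivity) (one_add_sum_le _ _ _)

omit [DecidableEq ι] in
theorem P_pos (a : ι → ℝ) (s : ℝ) : 0 < P a s := R_pos _ _ _

omit [DecidableEq ι] in
theorem P_cont (a : ι → ℝ) : Continuous (P a) := R_cont _ _

omit [DecidableEq ι] in
theorem P_int {a : ι → ℝ} (h : ∑ i, a i ^ 2 = 1) : IntegrableOn (P a) (Ioi 0) := by
  refine dom (P_cont a) 1 (fun s _ => ?_)
  rw [abs_of_pos (P_pos a s), one_mul]
  have := P_le a s
  rwa [h, one_mul] at this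

theorem pos_of {g : ℝ → ℝ} (hg : Continuous g) (hi : IntegrableOn g (Ioi 0))
    (h0 : ∀ x, 0 < x → 0 ≤ g x) {s : ℝ} (hs : 0 < s) (h : 0 < g s) :
    0 < ∫ x in Ioi (0:ℝ), g x := by
  rw [setIntegral_pos_iff_support_of_nonneg_ae _ hi]
  · have ho : IsOpen (Function.support g ∩ Ioi 0) := (hg.isOpen_support).inter isOpen_Ioi
    exact ho.measure_pos _ ⟨s, h.ne', hs⟩
  · rw [Filter.EventuallyLE, ae_restrict_iff' measurableSet_Ioi]
    exact Filter.Eventually.of_forall (fun x hx => h0 x hx)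

/-- splitting off three indices -/
theorem split3 {M : Type*} [CommMonoid M] {i j k : ι} (hij : i ≠ j) (hik : i ≠ k) (hjk : j ≠ k)
    (g : ι → M) :
    ∏ l, g l = g i * g j * g k * ∏ l ∈ ((Finset.univ.erase i).erase j).erase k, g l := by
  rw [← Finset.mul_prod_erase Finset.univ g (Finset.mem_univ i),
    ← Finset.mul_prod_erase (Finset.univ.erase i) g (a := j)
      (Finset.mem_erase.2 ⟨hij.symm, Finset.mem_univ j⟩),
    ← Finset.mul_prod_erase ((Finset.univ.erase i).erase j) g (a := k)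
      (Finset.mem_erase.2 ⟨hjk.symm, Finset.mem_erase.2 ⟨hik.symm, Finset.mem_univ k⟩⟩)]
  simp only [mul_assoc]

theorem split3_add {i j k : ι} (hij : i ≠ j) (hik : i ≠ k) (hjk : j ≠ k)
    (g : ι → ℝ) :
    ∑ l, g l = g i + g j + g k + ∑ l ∈ ((Finset.univ.erase i).erase j).erase k, g l := by
  rw [← Finset.add_sum_erase Finset.univ g (Finset.mem_univ i),
    ← Finset.add_sum_erase (Finset.univ.erase i) g (a := j)
      (Finset.mem_erase.2 ⟨hij.symm, Finset.mem_univ j⟩),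
    ← Finset.add_sum_erase ((Finset.univ.erase i).erase j) g (a := k)
      (Finset.mem_erase.2 ⟨hjk.symm, Finset.mem_erase.2 ⟨hik.symm, Finset.mem_univ k⟩⟩)]
  ring

/-- the move -/
def move (a : ι → ℝ) (i j k : ι) (x y z : ℝ) : ι → ℝ := fun l =>
  if l = i then x else if l = j then y else if l = k then z else a l

theorem move_rest (a : ι → ℝ) (i j k : ι) (x y z : ℝ) {l : ι}
    (hl : l ∈ ((Finset.univ.erase i).erase j).erase k) : move a i j k x y z l = a l := by
  simp only [Finset.mem_erase] at hl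
  simp [move, hl.1, hl.2.1, hl.2.2.1]

theorem move_spec {i j k : ι} (hij : i ≠ j) (hik : i ≠ k) (hjk : j ≠ k) (a : ι → ℝ)
    {x y z : ℝ} (h1 : x + y + z = a i + a j + a k)
    (h2 : x ^ 2 + y ^ 2 + z ^ 2 = a i ^ 2 + a j ^ 2 + a k ^ 2) :
    ∃ a' : ι → ℝ, ∑ l, a' l = ∑ l, a l ∧ ∑ l, a' l ^ 2 = ∑ l, a l ^ 2 ∧
      ∀ s, P a' s = f x s * f y s * f z s * R (((Finset.univ.erase i).erase j).erase k) a s := by
  refine ⟨move a i j k x y z, ?_, ?_, ?_⟩
  · rw [split3_add hij hik hjk, split3_add hij hik hjk (g := a),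
      Finset.sum_congr rfl (fun l hl => move_rest a i j k x y z hl), ← h1]
    simp [move, hij.symm, hik.symm, hjk.symm]
  · rw [split3_add hij hik hjk, split3_add hij hik hjk (g := fun l => a l ^ 2),
      Finset.sum_congr rfl (fun l hl => by rw [move_rest a i j k x y z hl]), ← h2]
    simp [move, hij.symm, hik.symm, hjk.symm]
  · intro s
    unfold P R
    rw [split3 hij hik hjk, Finset.prod_congr rfl
      (fun l hl => by rw [move_rest a i j k x y z hl])]
    simp [move, hij.symm, hik.symm, hjk.symm]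

theorem P_split {i j k : ι} (hij : i ≠ j) (hik : i ≠ k) (hjk : j ≠ k) (a : ι → ℝ) (s : ℝ) :
    P a s = f (a i) s * f (a j) s * f (a k) s *
      R (((Finset.univ.erase i).erase j).erase k) a s := by
  unfold P R
  rw [split3 hij hik hjk]

theorem Dform (x y z s : ℝ) :
    (1 + x ^ 2 * s ^ 2) * (1 + y ^ 2 * s ^ 2) * (1 + z ^ 2 * s ^ 2) =
      (1 - (x * y + y * z + z * x) * s ^ 2) ^ 2 + s ^ 2 * (x + y + z - x * y * z * s ^ 2) ^ 2 := by
  ring

/-- difference of the triple products with equal `e₁,e₂`. -/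
theorem fdiff {x y z x' y' z' : ℝ} (h1 : x' + y' + z' = x + y + z)
    (h2 : x' * y' + y' * z' + z' * x' = x * y + y * z + z * x) (s : ℝ) :
    f x' s * f y' s * f z' s - f x s * f y s * f z s =
      s ^ 4 * (x' * y' * z' - x * y * z) *
        (2 * (x + y + z) - (x * y * z + x' * y' * z') * s ^ 2) *
        (f x' s * f y' s * f z' s * (f x s * f y s * f z s)) := by
  have e1 : f x' s * f y' s * f z' s =
      ((1 + x' ^ 2 * s ^ 2) * (1 + y' ^ 2 * s ^ 2) * (1 + z' ^ 2 * s ^ 2))⁻¹ := by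
    unfold f; rw [mul_inv, mul_inv]
  have e2 : f x s * f y s * f z s =
      ((1 + x ^ 2 * s ^ 2) * (1 + y ^ 2 * s ^ 2) * (1 + z ^ 2 * s ^ 2))⁻¹ := by
    unfold f; rw [mul_inv, mul_inv]
  have p1 : (1 + x' ^ 2 * s ^ 2) * (1 + y' ^ 2 * s ^ 2) * (1 + z' ^ 2 * s ^ 2) ≠ 0 :=
    mul_ne_zero (mul_ne_zero tail_pos.ne' tail_pos.ne') tail_pos.ne'
  have p2 : (1 + x ^ 2 * s ^ 2) * (1 + y ^ 2 * s ^ 2) * (1 + z ^ 2 * s ^ 2) ≠ 0 :=
    mul_ne_zero (mul_ne_zero tail_pos.ne' tail_pos.ne') tail_pos.ne'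
  have key : (1 + x ^ 2 * s ^ 2) * (1 + y ^ 2 * s ^ 2) * (1 + z ^ 2 * s ^ 2) -
      (1 + x' ^ 2 * s ^ 2) * (1 + y' ^ 2 * s ^ 2) * (1 + z' ^ 2 * s ^ 2) =
      s ^ 4 * (x' * y' * z' - x * y * z) *
        (2 * (x + y + z) - (x * y * z + x' * y' * z') * s ^ 2) := by
    rw [Dform, Dform, h1, h2]; ring
  rw [e1, e2, ← key]
  generalize (1 + x ^ 2 * s ^ 2) * (1 + y ^ 2 * s ^ 2) * (1 + z ^ 2 * s ^ 2) = A at *
  generalize (1 + x' ^ 2 * s ^ 2) * (1 + y' ^ 2 * s ^ 2) * (1 + z' ^ 2 * s ^ 2) = B at *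
  field_simp

/-- Lemma B. -/
theorem moveB {i j k : ι} (hij : i ≠ j) (hik : i ≠ k) (hjk : j ≠ k) {a : ι → ℝ}
    (ha : ∑ l, a l ^ 2 = 1) (hi : 0 < a i) (hj : 0 < a j) (hk : a k < 0)
    (hs : 0 < a i + a j + a k) :
    ∃ a' : ι → ℝ, ∑ l, a' l = ∑ l, a l ∧ ∑ l, a' l ^ 2 = ∑ l, a l ^ 2 ∧ I a < I a' := by
  set x := a i with hx
  set y := a j with hy
  set z := a k with hz
  have hd : 0 ≤ (x + y + z) ^ 2 - 4 * (x * y + y * z + z * x) := by
    nlinarith [sq_nonneg (x - y), mul_pos hi (neg_pos.2 hk), mul_pos hj (neg_pos.2 hk)]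
  set D := Real.sqrt ((x + y + z) ^ 2 - 4 * (x * y + y * z + z * x)) with hD
  have hD2 : D ^ 2 = (x + y + z) ^ 2 - 4 * (x * y + y * z + z * x) := Real.sq_sqrt hd
  obtain ⟨a', h1, h2, h3⟩ := move_spec hij hik hjk a (x := (x + y + z + D) / 2)
    (y := (x + y + z - D) / 2) (z := 0) (by ring) (by
      have : ((x + y + z + D) / 2) ^ 2 + ((x + y + z - D) / 2) ^ 2 + 0 ^ 2 =
        ((x + y + z) ^ 2 + D ^ 2) / 2 := by ring
      rw [this, hD2]; ring)
  refine ⟨a', h1, h2, ?_⟩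
  have hI : IntegrableOn (P a) (Ioi 0) := P_int ha
  have hI' : IntegrableOn (P a') (Ioi 0) := P_int (h2.trans ha)
  unfold I
  rw [← sub_pos, ← integral_sub hI' hI]
  have hxyz : x * y * z < 0 := mul_neg_of_pos_of_neg (mul_pos hi hj) hk
  have hdiff : ∀ s, P a' s - P a s =
      (s ^ 4 * (0 - x * y * z) * (2 * (x + y + z) - (x * y * z + 0) * s ^ 2) *
        (f ((x + y + z + D) / 2) s * f ((x + y + z - D) / 2) s * f 0 s *
          (f x s * f y s * f z s))) *
        R (((Finset.univ.erase i).erase j).erase k) a s := by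
    intro s
    have h4 := fdiff (x := x) (y := y) (z := z) (x' := (x + y + z + D) / 2)
      (y' := (x + y + z - D) / 2) (z' := 0) (by ring) (by
        have : (x + y + z + D) / 2 * ((x + y + z - D) / 2) + (x + y + z - D) / 2 * 0 +
          0 * ((x + y + z + D) / 2) = ((x + y + z) ^ 2 - D ^ 2) / 4 := by ring
        rw [this, hD2]; ring) s
    rw [mul_zero] at h4
    rw [h3, P_split hij hik hjk a, ← hx, ← hy, ← hz, ← sub_mul, h4]
  have hpos : ∀ s, 0 < s → 0 < P a' s - P a s := by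
    intro s hs0
    rw [hdiff]
    have e1 : 0 < 0 - x * y * z := by linarith
    have e2 : 0 < 2 * (x + y + z) - (x * y * z + 0) * s ^ 2 := by
      have : 0 ≤ (-(x * y * z)) * s ^ 2 := by
        apply mul_nonneg
        · linarith
        · positivity
      linarith
    have := f_pos
    have r := R_pos (((Finset.univ.erase i).erase j).erase k) a s
    have s4 : 0 < s ^ 4 := by positivity
    refine mul_pos (mul_pos (mul_pos (mul_pos s4 e1) e2) (mul_pos ?_ ?_)) r
    · exact mul_pos (mul_pos (f_pos _ _) (f_pos _ _)) (f_pos _ _)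
    · exact mul_pos (mul_pos (f_pos _ _) (f_pos _ _)) (f_pos _ _)
  exact pos_of ((P_cont a').sub (P_cont a)) (hI'.sub hI) (fun s hs => (hpos s hs).le)
    one_pos (hpos 1 one_pos)


theorem sq_zero_eq {x y : ℝ} (h : (x - y) ^ 2 = 0) : x = y := by
  have := pow_eq_zero_iff (two_ne_zero) |>.1 h
  linarith

theorem eq_of_sum_sq {y z q : ℝ} (e1 : y + z = 2 * q) (e2 : y ^ 2 + z ^ 2 = 2 * q ^ 2) :
    y = q ∧ z = q := by
  have h : (y - z) ^ 2 = 0 := by
    have h1 : (y - z) ^ 2 = 2 * (y ^ 2 + z ^ 2) - (y + z) ^ 2 := by ring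
    rw [h1, e1, e2]; ring
  have := sq_zero_eq h
  constructor <;> linarith

theorem triple_alg {x y z : ℝ} (hi : 0 ≤ x) (hj : 0 ≤ y) (hk : 0 ≤ z)
    (he2 : 0 < x * y + y * z + z * x) :
    ∃ p q : ℝ, 0 < q ∧ q ≤ p ∧ x ≤ p ∧ y ≤ p ∧ z ≤ p ∧ q + q + p = x + y + z ∧
      q ^ 2 + q ^ 2 + p ^ 2 = x ^ 2 + y ^ 2 + z ^ 2 ∧
      q * q + q * p + p * q = x * y + y * z + z * x ∧
      q * q * p - x * y * z = (p - x) * (p - y) * (p - z) := by
  have hr0 : 0 ≤ (2 / 3) * (x ^ 2 + y ^ 2 + z ^ 2 - (x + y + z) ^ 2 / 3) := by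
    have : (2 / 3) * (x ^ 2 + y ^ 2 + z ^ 2 - (x + y + z) ^ 2 / 3) =
      (2 / 9) * ((x - y) ^ 2 + (y - z) ^ 2 + (z - x) ^ 2) := by ring
    rw [this]; positivity
  obtain ⟨ρ, hρ0, hρ2⟩ : ∃ ρ : ℝ, 0 ≤ ρ ∧
      ρ ^ 2 = (2 / 3) * (x ^ 2 + y ^ 2 + z ^ 2 - (x + y + z) ^ 2 / 3) :=
    ⟨_, Real.sqrt_nonneg _, Real.sq_sqrt hr0⟩
  have hS : 0 < x + y + z := by
    by_contra h
    have hx0 : x = 0 := by linarith
    have hy0 : y = 0 := by linarith
    have hz0 : z = 0 := by linarith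
    rw [hx0, hy0, hz0] at he2
    simp at he2
  have hρlt : ρ < 2 * (x + y + z) / 3 := by
    apply lt_of_pow_lt_pow_left₀ 2 (by positivity)
    rw [hρ2]
    have : (2 * (x + y + z) / 3) ^ 2 -
      2 / 3 * (x ^ 2 + y ^ 2 + z ^ 2 - (x + y + z) ^ 2 / 3) = 4 / 3 * (x * y + y * z + z * x) := by
      ring
    linarith
  have he1' : ((x + y + z) / 3 - ρ / 2) + ((x + y + z) / 3 - ρ / 2) + ((x + y + z) / 3 + ρ) =
    x + y + z := by ring
  have hsq' : ((x + y + z) / 3 - ρ / 2) ^ 2 + ((x + y + z) / 3 - ρ / 2) ^ 2 +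
      ((x + y + z) / 3 + ρ) ^ 2 = x ^ 2 + y ^ 2 + z ^ 2 := by
    have : ((x + y + z) / 3 - ρ / 2) ^ 2 + ((x + y + z) / 3 - ρ / 2) ^ 2 +
      ((x + y + z) / 3 + ρ) ^ 2 = (x + y + z) ^ 2 / 3 + 3 / 2 * ρ ^ 2 := by ring
    rw [this, hρ2]; ring
  have hle : ∀ u v w : ℝ, ρ ^ 2 = (2 / 3) * (u ^ 2 + v ^ 2 + w ^ 2 - (u + v + w) ^ 2 / 3) →
      u ≤ (u + v + w) / 3 + ρ := by
    intro u v w h
    have : u - (u + v + w) / 3 ≤ ρ := by
      apply le_of_sq_le_sq _ hρ0 |> fun h => h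
      rw [h]
      have e : (2 / 3) * (u ^ 2 + v ^ 2 + w ^ 2 - (u + v + w) ^ 2 / 3) -
        (u - (u + v + w) / 3) ^ 2 = (v - w) ^ 2 / 3 := by ring
      have := sq_nonneg (v - w)
      linarith
    linarith
  have hpx := hle x y z hρ2
  have hpy := hle y z x (by rw [hρ2]; ring)
  have hpz := hle z x y (by rw [hρ2]; ring)
  have e1 : y + z + x = x + y + z := by ring
  have e2 : z + x + y = x + y + z := by ring
  rw [e1] at hpy
  rw [e2] at hpz
  have hqq : 0 < (x + y + z) / 3 - ρ / 2 := by linarith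
  have hqp : (x + y + z) / 3 - ρ / 2 ≤ (x + y + z) / 3 + ρ := by linarith
  generalize (x + y + z) / 3 - ρ / 2 = q at *
  generalize (x + y + z) / 3 + ρ = p at *
  have he2' : q * q + q * p + p * q = x * y + y * z + z * x := by
    have h1 : q * q + q * p + p * q = ((q + q + p) ^ 2 - (q ^ 2 + q ^ 2 + p ^ 2)) / 2 := by ring
    rw [h1, he1', hsq']; ring
  refine ⟨p, q, hqq, hqp, hpx, hpy, hpz, he1', hsq', he2', ?_⟩
  have h1 : (p - x) * (p - y) * (p - z) =
      p ^ 3 - (x + y + z) * p ^ 2 + (x * y + y * z + z * x) * p - x * y * z := by ring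
  rw [h1, ← he1', ← he2']; ring

theorem int_triple {u v w : ℝ} (hu : 0 ≤ u) (h : 0 < u * v + v * w + w * u) :
    IntegrableOn (fun s => f u s * f v s * f w s) (Ioi 0) := by
  rcases hu.eq_or_lt with h0 | h0
  · have hv0 : v ≠ 0 := by
      rintro rfl
      rw [← h0] at h; simp at h
    refine dom (((f_cont u).mul (f_cont v)).mul (f_cont w)) (1 + (v ^ 2)⁻¹) (fun s _ => ?_)
    rw [abs_of_pos (mul_pos (mul_pos (f_pos _ _) (f_pos _ _)) (f_pos _ _))]
    calc f u s * f v s * f w s ≤ 1 * f v s * 1 := by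
          exact mul_le_mul (mul_le_mul_of_nonneg_right (f_le _ _) (f_pos _ _).le) (f_le _ _)
            (f_pos _ _).le (by have := f_pos v s; linarith)
      _ = f v s := by ring
      _ ≤ _ := tail_dom hv0
  · refine dom (((f_cont u).mul (f_cont v)).mul (f_cont w)) (1 + (u ^ 2)⁻¹) (fun s _ => ?_)
    rw [abs_of_pos (mul_pos (mul_pos (f_pos _ _) (f_pos _ _)) (f_pos _ _))]
    calc f u s * f v s * f w s ≤ f u s * 1 * 1 := by
          exact mul_le_mul (mul_le_mul_of_nonneg_left (f_le _ _) (f_pos _ _).le) (f_le _ _)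
            (f_pos _ _).le (by have := f_pos u s; linarith)
      _ = f u s := by ring
      _ ≤ _ := tail_dom h0.ne'

/-- integral of the triple product increases with `m`. -/
theorem triple_int_lt {x y z p q : ℝ} (hi : 0 ≤ x) (hj : 0 ≤ y) (hk : 0 ≤ z)
    (he2 : 0 < x * y + y * z + z * x) (hq0 : 0 < q) (hqp : q ≤ p)
    (he1' : q + q + p = x + y + z)
    (he2' : q * q + q * p + p * q = x * y + y * z + z * x)
    (hm : 0 < q * q * p - x * y * z) :
    0 < ∫ s in Ioi (0:ℝ), (f q s * f q s * f p s - f x s * f y s * f z s) := by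
  have hp0 : 0 < p := lt_of_lt_of_le hq0 hqp
  have hne : ¬ (x = y ∧ y = z) := by
    rintro ⟨rfl, rfl⟩
    -- then p = q = x
    have h1 : (p - q) ^ 2 = 0 := by
      have h : (p - q) ^ 2 = (q + q + p) ^ 2 - 3 * (q * q + q * p + p * q) := by ring
      rw [h, he1', he2']; ring
    have h2 := sq_zero_eq h1
    subst h2
    have h3 : p = x := by linarith
    subst h3
    simp at hm
  have hneq : ¬ (q = q ∧ q = p) := by
    rintro ⟨-, rfl⟩
    have h1 : (x - y) ^ 2 + (y - z) ^ 2 + (z - x) ^ 2 = 0 := by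
      have h : (x - y) ^ 2 + (y - z) ^ 2 + (z - x) ^ 2 =
        2 * ((x + y + z) ^ 2 - 3 * (x * y + y * z + z * x)) := by ring
      rw [h, ← he1', ← he2']; ring
    have h2 : (x - y) ^ 2 = 0 := by
      have := sq_nonneg (x - y); have := sq_nonneg (y - z); have := sq_nonneg (z - x); linarith
    have h3 : (y - z) ^ 2 = 0 := by
      have := sq_nonneg (x - y); have := sq_nonneg (y - z); have := sq_nonneg (z - x); linarith
    exact hne ⟨sq_zero_eq h2, sq_zero_eq h3⟩
  have heq : 0 < q * q + q * p + p * q := by positivity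
  have hJ1 := J hi hj hk he2 hne
  have hJ2 := J hq0.le hq0.le hp0.le heq hneq
  have hIx : IntegrableOn (fun s => f x s * f y s * f z s) (Ioi 0) := int_triple hi he2
  have hIq : IntegrableOn (fun s => f q s * f q s * f p s) (Ioi 0) := int_triple hq0.le heq
  have e : ∫ s in Ioi (0:ℝ), (f q s * f q s * f p s - f x s * f y s * f z s) =
      π / 2 * ((q * q + q * p + p * q) / ((q + q) * (q + p) * (p + q))) -
      π / 2 * ((x * y + y * z + z * x) / ((x + y) * (y + z) * (z + x))) := by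
    rw [← hJ1, ← hJ2]
    exact integral_sub hIq hIx
  rw [e, sub_pos]
  apply mul_lt_mul_of_pos_left _ (by positivity)
  rw [he2']
  have hden1 : (x + y) * (y + z) * (z + x) =
    (x + y + z) * (x * y + y * z + z * x) - x * y * z := by ring
  have hden2 : (q + q) * (q + p) * (p + q) =
    (x + y + z) * (x * y + y * z + z * x) - q * q * p := by
    rw [← he1', ← he2']; ring
  have hpos2 : 0 < (q + q) * (q + p) * (p + q) := by positivity
  apply div_lt_div_of_pos_left he2 hpos2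
  rw [hden1, hden2]
  linarith

/-- weighted comparison: `∫ φ R > 0` when `φ` changes sign from `+` to `-` once, `∫ φ > 0`
and `R` is positive and antitone. -/
theorem triple_int_R {x y z p q : ℝ} (T : Finset ι) (a : ι → ℝ)
    (hi : 0 ≤ x) (hj : 0 ≤ y) (hk : 0 ≤ z)
    (he2 : 0 < x * y + y * z + z * x) (hq0 : 0 < q) (hqp : q ≤ p)
    (he1' : q + q + p = x + y + z)
    (he2' : q * q + q * p + p * q = x * y + y * z + z * x)
    (hm : 0 < q * q * p - x * y * z)
    (hφR : IntegrableOn (fun s => (f q s * f q s * f p s - f x s * f y s * f z s) * R T a s)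
      (Ioi 0)) :
    0 < ∫ s in Ioi (0:ℝ), (f q s * f q s * f p s - f x s * f y s * f z s) * R T a s := by
  have hp0 : 0 < p := lt_of_lt_of_le hq0 hqp
  have hφpos := triple_int_lt hi hj hk he2 hq0 hqp he1' he2' hm
  have heq : 0 < q * q + q * p + p * q := by positivity
  have hIx : IntegrableOn (fun s => f x s * f y s * f z s) (Ioi 0) := int_triple hi he2
  have hIq : IntegrableOn (fun s => f q s * f q s * f p s) (Ioi 0) := int_triple hq0.le heq
  have hφI : IntegrableOn (fun s => f q s * f q s * f p s - f x s * f y s * f z s) (Ioi 0) :=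
    hIq.sub hIx
  have hm1 : 0 ≤ x * y * z := mul_nonneg (mul_nonneg hi hj) hk
  have hm2 : 0 < q * q * p := by positivity
  have hmm : 0 < x * y * z + q * q * p := by linarith
  obtain ⟨s0, hs00, hs0sq⟩ : ∃ s0 : ℝ, 0 ≤ s0 ∧
      s0 ^ 2 = 2 * (x + y + z) / (x * y * z + q * q * p) :=
    ⟨_, Real.sqrt_nonneg _, Real.sq_sqrt (by positivity)⟩
  have hsign : ∀ s, 0 < s →
      0 ≤ (f q s * f q s * f p s - f x s * f y s * f z s) * (R T a s - R T a s0) := by
    intro s hs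
    rw [fdiff (x := x) (y := y) (z := z) (x' := q) (y' := q) (z' := p) he1' he2' s]
    have hff : 0 < f q s * f q s * f p s * (f x s * f y s * f z s) :=
      mul_pos (mul_pos (mul_pos (f_pos _ _) (f_pos _ _)) (f_pos _ _))
        (mul_pos (mul_pos (f_pos _ _) (f_pos _ _)) (f_pos _ _))
    have hs4 : 0 < s ^ 4 * (q * q * p - x * y * z) := mul_pos (by positivity) hm
    have hfac : 2 * (x + y + z) - (x * y * z + q * q * p) * s ^ 2 =
      (x * y * z + q * q * p) * (s0 ^ 2 - s ^ 2) := by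
      rw [hs0sq]; field_simp
    rw [hfac]
    generalize f q s * f q s * f p s * (f x s * f y s * f z s) = F at *
    generalize s ^ 4 * (q * q * p - x * y * z) = G at *
    generalize x * y * z + q * q * p = M at *
    rcases le_total s s0 with hle | hle
    · have h1 : 0 ≤ s0 ^ 2 - s ^ 2 := sub_nonneg.2 (pow_le_pow_left₀ hs.le hle 2)
      have h2 := sub_nonneg.2 (R_anti T a hs.le hle)
      positivity
    · have h1 : 0 ≤ s ^ 2 - s0 ^ 2 := sub_nonneg.2 (pow_le_pow_left₀ hs00 hle 2)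
      have h2 := sub_nonneg.2 (R_anti T a hs00 hle)
      have h3 : G * (M * (s0 ^ 2 - s ^ 2)) * F * (R T a s - R T a s0) =
        G * (M * (s ^ 2 - s0 ^ 2)) * F * (R T a s0 - R T a s) := by ring
      rw [h3]
      positivity
  have h7 : 0 ≤ ∫ s in Ioi (0:ℝ),
      (f q s * f q s * f p s - f x s * f y s * f z s) * (R T a s - R T a s0) :=
    setIntegral_nonneg measurableSet_Ioi (fun s hs => hsign s hs)
  have h8 : ∫ s in Ioi (0:ℝ),
      (f q s * f q s * f p s - f x s * f y s * f z s) * (R T a s - R T a s0) =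
      (∫ s in Ioi (0:ℝ), (f q s * f q s * f p s - f x s * f y s * f z s) * R T a s) -
        (∫ s in Ioi (0:ℝ), (f q s * f q s * f p s - f x s * f y s * f z s)) * R T a s0 := by
    rw [← integral_mul_const, ← integral_sub hφR (hφI.mul_const _)]
    congr 1
    ext s
    ring
  have h10 := mul_pos hφpos (R_pos T a s0)
  linarith

/-- Lemma A. -/
theorem moveA {i j k : ι} (hij : i ≠ j) (hik : i ≠ k) (hjk : j ≠ k) {a : ι → ℝ}
    (ha : ∑ l, a l ^ 2 = 1) (hi : 0 ≤ a i) (hj : 0 ≤ a j) (hk : 0 ≤ a k)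
    (he2 : 0 < a i * a j + a j * a k + a k * a i)
    (hmax : ∀ a' : ι → ℝ, ∑ l, a' l = ∑ l, a l → ∑ l, a' l ^ 2 = ∑ l, a l ^ 2 → I a' ≤ I a) :
    ∃ p q : ℝ, 0 < q ∧ q ≤ p ∧ ((a i = p ∧ a j = q ∧ a k = q) ∨ (a j = p ∧ a i = q ∧ a k = q) ∨
      (a k = p ∧ a i = q ∧ a j = q)) := by
  obtain ⟨p, q, hq0, hqp, hpx, hpy, hpz, he1', hsq', he2', hroot⟩ := triple_alg hi hj hk he2
  by_cases hcase : p = a i ∨ p = a j ∨ p = a k
  · refine ⟨p, q, hq0, hqp, ?_⟩
    rcases hcase with h | h | h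
    · left
      rw [← h] at he1' hsq' ⊢
      exact ⟨rfl, eq_of_sum_sq (by linarith) (by linarith)⟩
    · right; left
      rw [← h] at he1' hsq' ⊢
      exact ⟨rfl, eq_of_sum_sq (by linarith) (by linarith)⟩
    · right; right
      rw [← h] at he1' hsq' ⊢
      exact ⟨rfl, eq_of_sum_sq (by linarith) (by linarith)⟩
  · exfalso
    push Not at hcase
    obtain ⟨c1, c2, c3⟩ := hcase
    have hm : 0 < q * q * p - a i * a j * a k := by
      rw [hroot]
      exact mul_pos (mul_pos (sub_pos.2 (lt_of_le_of_ne hpx (Ne.symm c1)))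
        (sub_pos.2 (lt_of_le_of_ne hpy (Ne.symm c2)))) (sub_pos.2 (lt_of_le_of_ne hpz (Ne.symm c3)))
    obtain ⟨a', h1, h2, h3⟩ := move_spec hij hik hjk a he1' hsq'
    have hle := hmax a' h1 h2
    have hI : IntegrableOn (P a) (Ioi 0) := P_int ha
    have hI' : IntegrableOn (P a') (Ioi 0) := P_int (h2.trans ha)
    have hdiff : ∀ s, P a' s - P a s = (f q s * f q s * f p s - f (a i) s * f (a j) s * f (a k) s) *
        R (((Finset.univ.erase i).erase j).erase k) a s := by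
      intro s
      rw [h3, P_split hij hik hjk a, ← sub_mul]
    have hφR : IntegrableOn (fun s =>
        (f q s * f q s * f p s - f (a i) s * f (a j) s * f (a k) s) *
        R (((Finset.univ.erase i).erase j).erase k) a s) (Ioi 0) := by
      have := hI'.sub hI
      refine this.congr ?_
      exact Filter.Eventually.of_forall (fun s => hdiff s)
    have h9 : I a' - I a = ∫ s in Ioi (0:ℝ),
        (f q s * f q s * f p s - f (a i) s * f (a j) s * f (a k) s) *
        R (((Finset.univ.erase i).erase j).erase k) a s := by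
      unfold I
      rw [← integral_sub hI' hI]
      congr 1
      ext s
      exact hdiff s
    have := triple_int_R (((Finset.univ.erase i).erase j).erase k) a hi hj hk he2 hq0 hqp
      he1' he2' hm hφR
    linarith

end Pool.Agent.R755.Xp
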