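import Mathlib
import Pool.Agent.R755.Xp.Triple

open MeasureTheory Set Real

namespace Pool.Agent.R755.Xp

variable {ι : Type*} [Fintype ι]

/-- the two-parameter integrals -/
noncomputable def G (N : ℕ) (p q : ℝ) : ℝ :=
  ∫ s in Ioi (0:ℝ), f q s ^ N * f p s * f (p + N * q) s

theorem I_neg (a : ι → ℝ) : I (fun i => - a i) = I a := by
  unfold I P
  simp only [f_neg]

/-- `a` is a maximiser of `I` on the constraint set. -/
def IsMaxi (a : ι → ℝ) : Prop :=
  ∑ i, a i = 0 ∧ ∑ i, a i ^ 2 = 1 ∧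
    ∀ a' : ι → ℝ, ∑ i, a' i = 0 → ∑ i, a' i ^ 2 = 1 → I a' ≤ I a

theorem IsMaxi.neg {a : ι → ℝ} (h : IsMaxi a) : IsMaxi (fun i => - a i) := by
  refine ⟨by rw [Finset.sum_neg_distrib, h.1, neg_zero], by simpa using h.2.1, ?_⟩
  intro a' h1 h2
  rw [I_neg]
  exact h.2.2 a' h1 h2

theorem exists_maxi (h : 2 ≤ Fintype.card ι) : ∃ a : ι → ℝ, IsMaxi a := by
  classical
  set M : Set (ι → ℝ) := {a | ∑ i, a i = 0 ∧ ∑ i, a i ^ 2 = 1} with hM
  have hcl : IsClosed M := by
    apply IsClosed.and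
    · exact isClosed_eq (by fun_prop) continuous_const
    · exact isClosed_eq (by fun_prop) continuous_const
  have hbd : M ⊆ Set.Icc (fun _ => -1) (fun _ => 1) := by
    intro a ha
    have hle : ∀ i, a i ^ 2 ≤ 1 := by
      intro i
      rw [← ha.2]
      exact Finset.single_le_sum (f := fun i => a i ^ 2) (fun _ _ => sq_nonneg _)
        (Finset.mem_univ i)
    constructor
    · intro i
      have := hle i
      show (-1:ℝ) ≤ a i
      nlinarith
    · intro i
      have := hle i
      show a i ≤ (1:ℝ)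
      nlinarith
  have hcomp : IsCompact M := isCompact_Icc.of_isClosed_subset hcl hbd
  have hne : M.Nonempty := by
    obtain ⟨i, j, hij⟩ := Fintype.one_lt_card_iff.1 (by omega : 1 < Fintype.card ι)
    refine ⟨fun l => if l = i then (Real.sqrt 2)⁻¹ else if l = j then -(Real.sqrt 2)⁻¹ else 0, ?_, ?_⟩
    · rw [← Finset.add_sum_erase _ _ (Finset.mem_univ i),
        ← Finset.add_sum_erase _ _ (Finset.mem_erase.2 ⟨hij.symm, Finset.mem_univ j⟩)]
      rw [Finset.sum_eq_zero (s := (Finset.univ.erase i).erase j)]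
      · simp [hij.symm]
      · intro l hl
        simp only [Finset.mem_erase] at hl
        simp [hl.1, hl.2.1]
    · rw [← Finset.add_sum_erase _ _ (Finset.mem_univ i),
        ← Finset.add_sum_erase _ _ (Finset.mem_erase.2 ⟨hij.symm, Finset.mem_univ j⟩)]
      rw [Finset.sum_eq_zero (s := (Finset.univ.erase i).erase j)]
      · have h2 : ((Real.sqrt 2)⁻¹) ^ 2 = 1 / 2 := by
          rw [inv_pow, Real.sq_sqrt (by norm_num)]; norm_num
        simp only [hij.symm, if_true, if_false, neg_sq, h2]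
        norm_num
      · intro l hl
        simp only [Finset.mem_erase] at hl
        simp [hl.1, hl.2.1]
  have hcont : ContinuousOn (fun a : ι → ℝ => I a) M := by
    unfold I
    refine continuousOn_of_dominated (bound := fun s => (1 + s ^ 2)⁻¹)
      (fun a _ => (P_cont a).aestronglyMeasurable) ?_
      integrable_inv_one_add_sq.integrableOn ?_
    · intro a ha
      refine Filter.Eventually.of_forall (fun s => ?_)
      rw [Real.norm_eq_abs, abs_of_pos (P_pos a s)]
      have := P_le a s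
      rwa [ha.2, one_mul] at this
    · refine Filter.Eventually.of_forall (fun s => ?_)
      apply Continuous.continuousOn
      unfold P f
      apply continuous_finsetProd
      intro i _
      exact Continuous.inv₀ (by fun_prop) (fun a => tail_pos.ne')
  obtain ⟨a, haM, hmax⟩ := hcomp.exists_isMaxOn hne hcont
  exact ⟨a, haM.1, haM.2, fun a' h1 h2 => hmax (show a' ∈ M from ⟨h1, h2⟩)⟩

theorem IsMaxi.pairB {a : ι → ℝ} (h : IsMaxi a) {i j k : ι} (hij : i ≠ j)
    (hi : 0 < a i) (hj : 0 < a j) (hk : a k < 0) : a i + a j + a k ≤ 0 := by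
  classical
  by_contra hcon
  push Not at hcon
  have hik : i ≠ k := by rintro rfl; linarith
  have hjk : j ≠ k := by rintro rfl; linarith
  obtain ⟨a', h1, h2, h3⟩ := moveB hij hik hjk h.2.1 hi hj hk hcon
  have := h.2.2 a' (h1.trans h.1) (h2.trans h.2.1)
  linarith

theorem IsMaxi.pairB' {a : ι → ℝ} (h : IsMaxi a) {i j k : ι} (hij : i ≠ j)
    (hi : a i < 0) (hj : a j < 0) (hk : 0 < a k) : 0 ≤ a i + a j + a k := by
  have := h.neg.pairB hij (neg_pos.2 hi) (neg_pos.2 hj) (neg_lt_zero.2 hk)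
  linarith

theorem IsMaxi.one_sided {a : ι → ℝ} (h : IsMaxi a) :
    (∀ i j, 0 < a i → 0 < a j → i = j) ∨ (∀ i j, a i < 0 → a j < 0 → i = j) := by
  by_contra hcon
  push Not at hcon
  obtain ⟨⟨i, j, hi, hj, hij⟩, ⟨k, l, hk, hl, hkl⟩⟩ := hcon
  have h1 := h.pairB hij hi hj hk
  have h2 := h.pairB' hkl hk hl hi
  linarith

theorem IsMaxi.exists_pos {a : ι → ℝ} (h : IsMaxi a) : ∃ i, 0 < a i := by
  have hne : ∃ i ∈ (Finset.univ : Finset ι), a i ≠ 0 := by
    by_contra hcon
    push Not at hcon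
    have := h.2.1
    rw [Finset.sum_eq_zero (fun i hi => by rw [hcon i hi]; norm_num)] at this
    norm_num at this
  obtain ⟨i, -, hi⟩ := Finset.exists_pos_of_sum_zero_of_exists_nonzero a h.1 hne
  exact ⟨i, hi⟩

theorem struct_aux {N : ℕ} (hcard : Fintype.card ι = N + 2) {a : ι → ℝ} (h : IsMaxi a)
    (hone : ∀ i j, a i < 0 → a j < 0 → i = j) :
    ∃ p q : ℝ, 0 ≤ q ∧ q ≤ p ∧ 0 < p ∧ N * q ^ 2 + p ^ 2 + (p + N * q) ^ 2 = 1 ∧
      I a = G N p q := by
  classical
  obtain ⟨i1, hi1⟩ := h.exists_pos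
  obtain ⟨k, hk'⟩ := h.neg.exists_pos
  have hk : a k < 0 := neg_pos.1 hk'
  have : Nonempty ι := ⟨k⟩
  obtain ⟨i, himax⟩ := Finite.exists_max a
  have hi : 0 < a i := lt_of_lt_of_le hi1 (himax i1)
  have hik : i ≠ k := by rintro rfl; linarith
  have hnn : ∀ l, l ≠ k → 0 ≤ a l := by
    intro l hl
    by_contra hcon
    exact hl (hone l k (not_le.1 hcon) hk)
  have hq : ∃ q, 0 ≤ q ∧ q ≤ a i ∧ ∀ l, l ≠ i → l ≠ k → a l = q := by
    by_cases hall : ∀ l, l ≠ i → l ≠ k → a l = 0
    · exact ⟨0, le_rfl, hi.le, hall⟩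
    · push Not at hall
      obtain ⟨j, hji, hjk, hj0⟩ := hall
      have hj : 0 < a j := lt_of_le_of_ne (hnn j hjk) (Ne.symm hj0)
      refine ⟨a j, hj.le, himax j, ?_⟩
      intro l hli hlk
      by_cases hlj : l = j
      · rw [hlj]
      have he2 : 0 < a i * a j + a j * a l + a l * a i := by
        have := hnn l hlk
        have h1 := mul_pos hi hj
        have h2 := mul_nonneg hj.le this
        have h3 := mul_nonneg this hi.le
        linarith
      obtain ⟨p, q, hq0, hqp, hc⟩ := moveA (Ne.symm hji) (Ne.symm hli) (Ne.symm hlj) h.2.1 hi.le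
        hj.le (hnn l hlk) he2 (fun a' h1 h2 => h.2.2 a' (h1.trans h.1) (h2.trans h.2.1))
      have m1 := himax j
      have m2 := himax l
      rcases hc with ⟨c1, c2, c3⟩ | ⟨c1, c2, c3⟩ | ⟨c1, c2, c3⟩
      · rw [c2, c3]
      · rw [c1, c3]; linarith
      · rw [c1, c3]; linarith
  obtain ⟨q, hq0, hqp, hql⟩ := hq
  set T := (Finset.univ.erase i).erase k with hT
  have hkT : k ∈ Finset.univ.erase i := Finset.mem_erase.2 ⟨hik.symm, Finset.mem_univ k⟩
  have hTcard : T.card = N := by
    rw [hT, Finset.card_erase_of_mem hkT, Finset.card_erase_of_mem (Finset.mem_univ i),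
      Finset.card_univ, hcard]
    omega
  have hTq : ∀ l ∈ T, a l = q := by
    intro l hl
    simp only [hT, Finset.mem_erase] at hl
    exact hql l hl.2.1 hl.1
  have hsum : a i + (a k + N * q) = 0 := by
    have h0 := h.1
    rw [← Finset.add_sum_erase _ _ (Finset.mem_univ i), ← Finset.add_sum_erase _ _ hkT,
      Finset.sum_congr rfl hTq, Finset.sum_const, hTcard, nsmul_eq_mul] at h0
    exact h0
  have hak : a k = -(a i + N * q) := by linarith
  refine ⟨a i, q, hq0, hqp, hi, ?_, ?_⟩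
  · have h0 := h.2.1
    rw [← Finset.add_sum_erase _ _ (Finset.mem_univ i), ← Finset.add_sum_erase _ _ hkT,
      Finset.sum_congr rfl (fun l hl => by rw [hTq l hl]), Finset.sum_const, hTcard, nsmul_eq_mul,
      hak] at h0
    linarith
  · unfold I G
    congr 1
    ext s
    unfold P
    rw [← Finset.mul_prod_erase _ _ (Finset.mem_univ i), ← Finset.mul_prod_erase _ _ hkT,
      Finset.prod_congr rfl (fun l hl => by rw [hTq l hl]), Finset.prod_const, hTcard,
      hak, f_neg]
    ring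

theorem struct {N : ℕ} (hcard : Fintype.card ι = N + 2) {a : ι → ℝ} (h : IsMaxi a) :
    ∃ p q : ℝ, 0 ≤ q ∧ q ≤ p ∧ 0 < p ∧ N * q ^ 2 + p ^ 2 + (p + N * q) ^ 2 = 1 ∧
      I a = G N p q := by
  rcases h.one_sided with h1 | h1
  · have := struct_aux hcard h.neg (fun i j hi hj => h1 i j (by simpa using hi) (by simpa using hj))
    rwa [I_neg] at this
  · exact struct_aux hcard h h1

end Pool.Agent.R755.Xp
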