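import Mathlib
import Pool.Agent.R755.Xp.Struct

open MeasureTheory Set Real

namespace Pool.Agent.R755.Xp

/-- curve integrand -/
noncomputable def ka (N : ℕ) (r x : ℝ) : ℝ := f r x ^ N * f 1 x * f (1 + N * r) x

noncomputable def Ka (N : ℕ) (r : ℝ) : ℝ := ∫ x in Ioi (0:ℝ), ka N r x

noncomputable def cc (N : ℕ) (r : ℝ) : ℝ := N * r ^ 2 + 1 + (1 + N * r) ^ 2

noncomputable def Fc (N : ℕ) (r : ℝ) : ℝ := Real.sqrt (cc N r) * Ka N r

theorem cc_pos (N : ℕ) (r : ℝ) : 0 < cc N r := by unfold cc; positivity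

theorem ka_pos (N : ℕ) (r x : ℝ) : 0 < ka N r x :=
  mul_pos (mul_pos (pow_pos (f_pos _ _) _) (f_pos _ _)) (f_pos _ _)

theorem f1 (x : ℝ) : f 1 x = (1 + x ^ 2)⁻¹ := by unfold f; rw [one_pow, one_mul]

theorem fpow_le (r x : ℝ) (N : ℕ) : f r x ^ N ≤ 1 := pow_le_one₀ (f_pos _ _).le (f_le _ _)

theorem ka_le (N : ℕ) (r x : ℝ) : ka N r x ≤ (1 + x ^ 2)⁻¹ := by
  unfold ka
  rw [← f1]
  calc f r x ^ N * f 1 x * f (1 + N * r) x ≤ 1 * f 1 x * 1 := by
        exact mul_le_mul (mul_le_mul_of_nonneg_right (fpow_le _ _ _) (f_pos _ _).le) (f_le _ _)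
          (f_pos _ _).le (by have := f_pos 1 x; linarith)
    _ = f 1 x := by ring

theorem ka_cont_x (N : ℕ) (r : ℝ) : Continuous (ka N r) := by
  unfold ka
  exact (((f_cont r).pow N).mul (f_cont 1)).mul (f_cont _)

theorem f_cont_r (x : ℝ) : Continuous (fun r => f r x) := by
  unfold f
  exact Continuous.inv₀ (by fun_prop) (fun a => tail_pos.ne')

theorem ka_cont_r (N : ℕ) (x : ℝ) : Continuous (fun r => ka N r x) := by
  unfold ka
  exact (((f_cont_r x).pow N).mul continuous_const).mul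
    ((f_cont_r x).comp (by fun_prop : Continuous fun r : ℝ => 1 + (N:ℝ) * r))

theorem ka_int (N : ℕ) (r : ℝ) : IntegrableOn (ka N r) (Ioi 0) := by
  refine dom (ka_cont_x N r) 1 (fun x _ => ?_)
  rw [abs_of_pos (ka_pos _ _ _), one_mul]
  exact ka_le N r x

theorem Ka_pos (N : ℕ) (r : ℝ) : 0 < Ka N r :=
  pos_of (ka_cont_x N r) (ka_int N r) (fun x _ => (ka_pos _ _ _).le) one_pos (ka_pos _ _ _)

theorem Ka_cont (N : ℕ) : Continuous (Ka N) := by
  unfold Ka
  refine continuous_of_dominated (bound := fun x => (1 + x ^ 2)⁻¹)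
    (fun r => (ka_cont_x N r).aestronglyMeasurable) ?_
    integrable_inv_one_add_sq.integrableOn ?_
  · intro r
    refine Filter.Eventually.of_forall (fun x => ?_)
    rw [Real.norm_eq_abs, abs_of_pos (ka_pos _ _ _)]
    exact ka_le N r x
  · exact Filter.Eventually.of_forall (fun x => ka_cont_r N x)

theorem Fc_cont (N : ℕ) : Continuous (Fc N) := by
  unfold Fc cc
  exact (by fun_prop : Continuous fun r : ℝ => Real.sqrt (N * r ^ 2 + 1 + (1 + N * r) ^ 2)).mul
    (Ka_cont N)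

/-- scaling: the two-parameter integral in terms of the curve function. -/
theorem G_eq {N : ℕ} {p q : ℝ} (hp : 0 < p)
    (h : N * q ^ 2 + p ^ 2 + (p + N * q) ^ 2 = 1) : G N p q = Fc N (q / p) := by
  have h1 : G N p q = p⁻¹ * Ka N (q / p) := by
    have hs := integral_comp_mul_left_Ioi (ka N (q / p)) 0 hp
    rw [mul_zero, smul_eq_mul] at hs
    unfold Ka
    rw [← hs]
    unfold G
    congr 1
    ext s
    unfold ka f
    have e1 : (q / p) ^ 2 * (p * s) ^ 2 = q ^ 2 * s ^ 2 := by field_simp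
    have e2 : (1 + N * (q / p)) ^ 2 * (p * s) ^ 2 = (p + N * q) ^ 2 * s ^ 2 := by
      field_simp
    rw [e1, e2]
    ring_nf
  have h2 : Real.sqrt (cc N (q / p)) = p⁻¹ := by
    have : cc N (q / p) = (p⁻¹) ^ 2 := by
      unfold cc
      field_simp
      linarith
    rw [this, Real.sqrt_sq (by positivity)]
  rw [h1]
  unfold Fc
  rw [h2]

theorem f_hasDeriv_r (r x : ℝ) : HasDerivAt (fun r => f r x) (-(2 * r * x ^ 2 * f r x ^ 2)) r := by
  unfold f
  have h1 : HasDerivAt (fun r : ℝ => 1 + r ^ 2 * x ^ 2) (2 * r * x ^ 2) r := by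
    have := ((hasDerivAt_pow 2 r).mul_const (x ^ 2)).const_add 1
    simpa using this
  have h2 := h1.fun_inv (tail_pos (a := r) (s := x)).ne'
  refine h2.congr_deriv ?_
  have h3 : (1 + r ^ 2 * x ^ 2) ≠ 0 := tail_pos.ne'
  field_simp

theorem f_hasDeriv_x (r x : ℝ) : HasDerivAt (fun x => f r x) (-(2 * r ^ 2 * x * f r x ^ 2)) x := by
  unfold f
  have h1 : HasDerivAt (fun x : ℝ => 1 + r ^ 2 * x ^ 2) (r ^ 2 * (2 * x)) x := by
    have := ((hasDerivAt_pow 2 x).const_mul (r ^ 2)).const_add 1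
    simpa using this
  have h2 := h1.fun_inv (tail_pos (a := r) (s := x)).ne'
  refine h2.congr_deriv ?_
  have h3 : (1 + r ^ 2 * x ^ 2) ≠ 0 := tail_pos.ne'
  field_simp

/-- `∂_r κ`. -/
noncomputable def dka (N : ℕ) (r x : ℝ) : ℝ :=
  -(2 * N * x ^ 2 * ka N r x * (r * f r x + (1 + N * r) * f (1 + N * r) x))

theorem ka_hasDeriv_r (N : ℕ) (r x : ℝ) : HasDerivAt (fun r => ka N r x) (dka N r x) r := by
  have h1 := (f_hasDeriv_r r x).fun_pow N
  have h2 : HasDerivAt (fun r => f (1 + N * r) x)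
      (-(2 * (1 + N * r) * x ^ 2 * f (1 + N * r) x ^ 2) * N) r := by
    have h3 : HasDerivAt (fun r : ℝ => 1 + (N:ℝ) * r) N r := by
      have := ((hasDerivAt_id' r).const_mul (N:ℝ)).const_add 1
      simpa using this
    exact HasDerivAt.comp (h₂ := fun r => f r x) (h := fun r : ℝ => 1 + (N:ℝ) * r) r
      (f_hasDeriv_r (1 + N * r) x) h3
  have h4 := (h1.mul_const (f 1 x)).fun_mul h2
  unfold ka
  refine h4.congr_deriv ?_
  unfold dka ka
  rcases Nat.eq_zero_or_pos N with hN | hN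
  · subst hN; simp
  · obtain ⟨m, rfl⟩ : ∃ m, N = m + 1 := ⟨N - 1, by omega⟩
    simp only [Nat.add_sub_cancel]
    push_cast
    ring

theorem x2f1 (x : ℝ) : x ^ 2 * f 1 x ≤ 1 := by
  rw [f1]
  have : (0:ℝ) < 1 + x ^ 2 := by positivity
  rw [← div_eq_mul_inv, div_le_one this]
  linarith

theorem fT_le {T x : ℝ} (hT : 1 ≤ T) : f T x ≤ f 1 x := by
  unfold f
  refine inv_anti₀ tail_pos ?_
  have : (1:ℝ) ^ 2 ≤ T ^ 2 := pow_le_pow_left₀ zero_le_one hT 2
  gcongr

theorem dka_bound {N : ℕ} {r : ℝ} (h0 : 0 ≤ r) (h1 : r ≤ 1) (x : ℝ) :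
    ‖dka N r x‖ ≤ 2 * N * (N + 2) * (1 + x ^ 2)⁻¹ := by
  have hT : 1 ≤ 1 + (N:ℝ) * r := by have : 0 ≤ (N:ℝ) * r := by positivity
                                    linarith
  have hT2 : 1 + (N:ℝ) * r ≤ 1 + N := by
    have : (N:ℝ) * r ≤ N * 1 := by gcongr
    linarith
  have hf := f_pos r x
  have hf1 := f_pos 1 x
  have hfT := f_pos (1 + N * r) x
  have hk := ka_pos N r x
  unfold dka
  rw [norm_neg, Real.norm_eq_abs, abs_of_nonneg (by positivity)]
  have e1 : r * f r x + (1 + N * r) * f (1 + N * r) x ≤ N + 2 := by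
    have a1 : r * f r x ≤ 1 * 1 := mul_le_mul h1 (f_le _ _) hf.le zero_le_one
    have a2 : (1 + N * r) * f (1 + N * r) x ≤ (1 + N) * 1 :=
      mul_le_mul hT2 (f_le _ _) hfT.le (by positivity)
    linarith
  have e2 : x ^ 2 * ka N r x ≤ (1 + x ^ 2)⁻¹ := by
    unfold ka
    calc x ^ 2 * (f r x ^ N * f 1 x * f (1 + N * r) x) =
        (f r x ^ N) * (x ^ 2 * f 1 x) * f (1 + N * r) x := by ring
      _ ≤ 1 * 1 * f 1 x := by
          refine mul_le_mul (mul_le_mul (fpow_le _ _ _) (x2f1 x) (by positivity) zero_le_one)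
            (fT_le hT) hfT.le (by norm_num)
      _ = (1 + x ^ 2)⁻¹ := by rw [f1]; ring
  calc 2 * (N:ℝ) * x ^ 2 * ka N r x * (r * f r x + (1 + N * r) * f (1 + N * r) x) =
      2 * (N:ℝ) * (x ^ 2 * ka N r x) * (r * f r x + (1 + N * r) * f (1 + N * r) x) := by ring
    _ ≤ 2 * (N:ℝ) * (1 + x ^ 2)⁻¹ * (N + 2) := by
        refine mul_le_mul (mul_le_mul_of_nonneg_left e2 (by positivity)) e1 (by positivity)
          (by positivity)
    _ = _ := by ring

theorem dka_cont_x (N : ℕ) (r : ℝ) : Continuous (dka N r) := by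
  unfold dka
  have h1 := ka_cont_x N r
  have h2 := f_cont r
  have h3 := f_cont (1 + N * r)
  exact (((continuous_const.mul (continuous_id.pow 2)).mul h1).mul
    ((continuous_const.mul h2).add (continuous_const.mul h3))).neg

theorem Ka_hasDeriv {N : ℕ} {r : ℝ} (h0 : 0 < r) (h1 : r < 1) :
    HasDerivAt (Ka N) (∫ x in Ioi (0:ℝ), dka N r x) r ∧ IntegrableOn (dka N r) (Ioi 0) := by
  have h := hasDerivAt_integral_of_dominated_loc_of_deriv_le (μ := volume.restrict (Ioi (0:ℝ)))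
    (F := ka N) (F' := dka N) (x₀ := r) (s := Ioo 0 1)
    (bound := fun x => 2 * N * (N + 2) * (1 + x ^ 2)⁻¹)
    (Ioo_mem_nhds h0 h1)
    (Filter.Eventually.of_forall (fun r => (ka_cont_x N r).aestronglyMeasurable))
    (ka_int N r) ((dka_cont_x N r).aestronglyMeasurable)
    (Filter.Eventually.of_forall (fun x s hs => dka_bound hs.1.le hs.2.le x))
    ((integrable_inv_one_add_sq.const_mul _).integrableOn)
    (Filter.Eventually.of_forall (fun x s _ => ka_hasDeriv_r N s x))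
  exact ⟨h.2, h.1⟩

/-- the identity `K = 2∫ x² κ (N r² f_r + f_1 + T² f_T)`. -/
noncomputable def ek (N : ℕ) (r x : ℝ) : ℝ :=
  2 * x ^ 2 * ka N r x * (N * r ^ 2 * f r x + f 1 x + (1 + N * r) ^ 2 * f (1 + N * r) x)

theorem xka_hasDeriv (N : ℕ) (r x : ℝ) :
    HasDerivAt (fun x => x * ka N r x) (ka N r x - ek N r x) x := by
  have h1 := (f_hasDeriv_x r x).fun_pow N
  have h2 := f_hasDeriv_x (1 + N * r) x
  have h3 := f_hasDeriv_x 1 x
  have h4 := (hasDerivAt_id' x).fun_mul ((h1.fun_mul h3).fun_mul h2)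
  unfold ka
  refine h4.congr_deriv ?_
  unfold ek ka
  rcases Nat.eq_zero_or_pos N with hN | hN
  · subst hN; simp; ring
  · obtain ⟨m, rfl⟩ : ∃ m, N = m + 1 := ⟨N - 1, by omega⟩
    simp only [Nat.add_sub_cancel]
    push_cast
    ring

theorem ek_cont (N : ℕ) (r : ℝ) : Continuous (ek N r) := by
  unfold ek
  have h1 := ka_cont_x N r
  have h2 := f_cont r
  have h3 := f_cont (1 + N * r)
  have h4 := f_cont 1
  exact ((continuous_const.mul (continuous_id.pow 2)).mul h1).mul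
    (((continuous_const.mul h2).add h4).add (continuous_const.mul h3))

theorem x2f (y x : ℝ) : x ^ 2 * (y ^ 2 * f y x) ≤ 1 := by
  unfold f
  have h := tail_pos (a := y) (s := x)
  have : x ^ 2 * (y ^ 2 * (1 + y ^ 2 * x ^ 2)⁻¹) = (y ^ 2 * x ^ 2) / (1 + y ^ 2 * x ^ 2) := by
    field_simp
  rw [this, div_le_one h]
  linarith

theorem ek_int (N : ℕ) (r : ℝ) : IntegrableOn (ek N r) (Ioi 0) := by
  refine dom (ek_cont N r) (2 * (N + 2)) (fun x _ => ?_)
  have hf := f_pos r x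
  have hf1 := f_pos 1 x
  have hfT := f_pos (1 + N * r) x
  have hk := ka_pos N r x
  unfold ek
  rw [abs_of_nonneg (by positivity)]
  have a1 := x2f r x
  have a2 := x2f 1 x
  have a3 := x2f (1 + N * r) x
  have a4 : x ^ 2 * (N * r ^ 2 * f r x + f 1 x + (1 + N * r) ^ 2 * f (1 + N * r) x) ≤ N + 2 := by
    have b1 : (N:ℝ) * (x ^ 2 * (r ^ 2 * f r x)) ≤ N * 1 := by gcongr
    nlinarith
  calc 2 * x ^ 2 * ka N r x *
        ((N:ℝ) * r ^ 2 * f r x + f 1 x + (1 + N * r) ^ 2 * f (1 + N * r) x) =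
      2 * (x ^ 2 * ((N:ℝ) * r ^ 2 * f r x + f 1 x + (1 + N * r) ^ 2 * f (1 + N * r) x)) *
        ka N r x := by ring
    _ ≤ 2 * ((N:ℝ) + 2) * (1 + x ^ 2)⁻¹ := by
        refine mul_le_mul (mul_le_mul_of_nonneg_left a4 (by norm_num)) (ka_le N r x) hk.le
          (by positivity)

theorem Ka_eq_ek (N : ℕ) (r : ℝ) : Ka N r = ∫ x in Ioi (0:ℝ), ek N r x := by
  have ht : Filter.Tendsto (fun x => x * ka N r x) Filter.atTop (nhds 0) := by
    refine squeeze_zero' ?_ ?_ (tendsto_x 0)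
    · filter_upwards [Filter.eventually_gt_atTop 0] with x hx
      exact mul_nonneg hx.le (ka_pos _ _ _).le
    · filter_upwards [Filter.eventually_gt_atTop 0] with x hx
      rw [zero_add, pow_one]
      exact mul_le_mul_of_nonneg_left (ka_le N r x) hx.le
  have h := integral_Ioi_of_hasDerivAt_of_tendsto' (a := 0) (m := 0)
    (fun x _ => xka_hasDeriv N r x) ((ka_int N r).sub (ek_int N r)) ht
  rw [integral_sub (ka_int N r) (ek_int N r)] at h
  simp only [zero_mul, sub_zero] at h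
  unfold Ka
  linarith

/-- integrand of `S`. -/
noncomputable def si (N : ℕ) (r x : ℝ) : ℝ :=
  x ^ 4 * (((N:ℝ) - 1) - (1 + N * r) * x ^ 2) * f r x ^ (N + 1) * f 1 x ^ 2 * f (1 + N * r) x ^ 2

noncomputable def SS (N : ℕ) (r : ℝ) : ℝ := ∫ x in Ioi (0:ℝ), si N r x

theorem bracket (N : ℕ) (r x : ℝ) :
    (r + (1 + N * r)) * (N * r ^ 2 * f r x + f 1 x + (1 + N * r) ^ 2 * f (1 + N * r) x) -
      cc N r * (r * f r x + (1 + N * r) * f (1 + N * r) x) =
    r * (1 - r) * (2 + N * r) * (1 + (N + 1) * r) *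
      (x ^ 2 * (((N:ℝ) - 1) - (1 + N * r) * x ^ 2) * f r x * f 1 x * f (1 + N * r) x) := by
  unfold f cc
  have h1 : (1 + r ^ 2 * x ^ 2) ≠ 0 := tail_pos.ne'
  have h2 : (1 + (1 + N * r) ^ 2 * x ^ 2) ≠ 0 := tail_pos.ne'
  have h3 : (1 + 1 ^ 2 * x ^ 2 : ℝ) ≠ 0 := tail_pos.ne'
  field_simp
  ring

theorem combo (N : ℕ) (r x : ℝ) :
    2 * N * (r + (1 + N * r)) * ek N r x + 2 * cc N r * dka N r x =
      4 * N * (r * (1 - r) * (2 + N * r) * (1 + (N + 1) * r)) * si N r x := by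
  have h := bracket N r x
  unfold ek dka si
  have e : 2 * (N:ℝ) * (r + (1 + N * r)) *
      (2 * x ^ 2 * ka N r x * (N * r ^ 2 * f r x + f 1 x + (1 + N * r) ^ 2 * f (1 + N * r) x)) +
      2 * cc N r * -(2 * N * x ^ 2 * ka N r x * (r * f r x + (1 + N * r) * f (1 + N * r) x)) =
      4 * N * x ^ 2 * ka N r x *
      ((r + (1 + N * r)) * (N * r ^ 2 * f r x + f 1 x + (1 + N * r) ^ 2 * f (1 + N * r) x) -
      cc N r * (r * f r x + (1 + N * r) * f (1 + N * r) x)) := by ring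
  rw [e, h]
  unfold ka
  ring

theorem si_cont (N : ℕ) (r : ℝ) : Continuous (si N r) := by
  unfold si
  have h2 := f_cont r
  have h3 := f_cont (1 + N * r)
  have h4 := f_cont 1
  fun_prop

theorem si_int {N : ℕ} {r : ℝ} (h0 : 0 ≤ r) : IntegrableOn (si N r) (Ioi 0) := by
  refine dom (si_cont N r) (N + 1 + (1 + N * r)) (fun x _ => ?_)
  have hT : 1 ≤ 1 + (N:ℝ) * r := by have : 0 ≤ (N:ℝ) * r := by positivity
                                    linarith
  have hf := f_pos r x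
  have hf1 := f_pos 1 x
  have hfT := f_pos (1 + N * r) x
  unfold si
  rw [abs_mul, abs_mul, abs_mul, abs_mul, abs_of_pos (pow_pos hf _), abs_of_pos (pow_pos hf1 _),
    abs_of_pos (pow_pos hfT _), abs_of_nonneg (by positivity : 0 ≤ x ^ 4)]
  have e1 : |((N:ℝ) - 1) - (1 + N * r) * x ^ 2| ≤ (N + 1 + (1 + N * r)) * (1 + x ^ 2) := by
    have hN : (0:ℝ) ≤ N := Nat.cast_nonneg N
    have hx : 0 ≤ x ^ 2 := sq_nonneg x
    have hNr : 0 ≤ (N:ℝ) * r := by positivity
    have hNx := mul_nonneg hN hx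
    have hNrx := mul_nonneg hNr hx
    rw [abs_le]
    constructor <;> nlinarith
  have e2 : (1 + x ^ 2) * f 1 x = 1 := by
    rw [f1]; exact mul_inv_cancel₀ (by positivity)
  calc x ^ 4 * |((N:ℝ) - 1) - (1 + N * r) * x ^ 2| * f r x ^ (N + 1) * f 1 x ^ 2 *
        f (1 + N * r) x ^ 2
      ≤ x ^ 4 * ((N + 1 + (1 + N * r)) * (1 + x ^ 2)) * 1 * f 1 x ^ 2 * f 1 x ^ 2 := by
        have hh := fT_le (x := x) hT
        have := fpow_le r x (N + 1)
        gcongr
    _ = (N + 1 + (1 + N * r)) * ((x ^ 2 * f 1 x) ^ 2) * ((1 + x ^ 2) * f 1 x) * f 1 x := by ring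
    _ ≤ (N + 1 + (1 + N * r)) * (1 ^ 2) * 1 * f 1 x := by
        rw [e2]
        have := x2f1 x
        gcongr
    _ = (N + 1 + (1 + N * r)) * (1 + x ^ 2)⁻¹ := by rw [f1]; ring

theorem Fc_hasDeriv {N : ℕ} {r : ℝ} (h0 : 0 < r) (h1 : r < 1) :
    HasDerivAt (Fc N) (4 * N * (r * (1 - r) * (2 + N * r) * (1 + (N + 1) * r)) * SS N r /
      (2 * Real.sqrt (cc N r))) r := by
  obtain ⟨hK, hKi⟩ := Ka_hasDeriv (N := N) h0 h1
  have hc : HasDerivAt (cc N) (2 * N * (r + (1 + N * r))) r := by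
    unfold cc
    have a1 : HasDerivAt (fun r : ℝ => 1 + (N:ℝ) * r) N r := by
      have := ((hasDerivAt_id' r).const_mul (N:ℝ)).const_add 1
      simpa using this
    have a2 := (((hasDerivAt_pow 2 r).const_mul (N:ℝ)).add_const 1).fun_add (a1.fun_pow 2)
    refine a2.congr_deriv ?_
    norm_num
    ring
  have hs := hc.sqrt (cc_pos N r).ne'
  have h := hs.fun_mul hK
  unfold Fc
  refine h.congr_deriv ?_
  have hsq : Real.sqrt (cc N r) ^ 2 = cc N r := Real.sq_sqrt (cc_pos N r).le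
  have hs0 : 0 < Real.sqrt (cc N r) := Real.sqrt_pos.2 (cc_pos N r)
  have key : 2 * N * (r + (1 + N * r)) * Ka N r + 2 * cc N r * (∫ x in Ioi (0:ℝ), dka N r x) =
      4 * N * (r * (1 - r) * (2 + N * r) * (1 + (N + 1) * r)) * SS N r := by
    rw [Ka_eq_ek]
    unfold SS
    rw [← integral_const_mul, ← integral_const_mul, ← integral_const_mul, ← integral_add
      ((ek_int N r).const_mul _) (hKi.const_mul _)]
    congr 1
    ext x
    exact combo N r x
  rw [← key]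
  rw [eq_div_iff (by positivity)]
  field_simp
  rw [hsq]
  ring

end Pool.Agent.R755.Xp
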