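import Mathlib
import Pool.Agent.R755.Xp.Curve

open MeasureTheory Set Real

namespace Pool.Agent.R755.Xp

/-- the log-weight `g(v)`. -/
noncomputable def gl (N : ℕ) (X v : ℝ) : ℝ :=
  (N + 3) * Real.log ((N:ℝ) ^ 2 + v * (N - 1)) - (N + 1) * Real.log ((N:ℝ) ^ 2 + v * X) -
    2 * Real.log ((1 + X) ^ 2 + v * X)

theorem gl_hasDeriv {N : ℕ} (hN : 2 ≤ N) {X v : ℝ} (hX : 0 ≤ X) (hv : 0 ≤ v) :
    HasDerivAt (gl N X) (((N:ℝ) - 1 - X) / (((N:ℝ) ^ 2 + v * (N - 1)) *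
      (((N:ℝ) ^ 2 + v * X) * ((1 + X) ^ 2 + v * X))) *
      ((N:ℝ) ^ 2 * (N + 3) + X * (4 * (N:ℝ) ^ 2 + v * ((N + 1) * (N:ℝ) ^ 2 + 2)) +
        X ^ 2 * ((N + 1) * (N:ℝ) ^ 2 - 2 * (N - 1) * v))) v := by
  have hN' : (2:ℝ) ≤ N := by exact_mod_cast hN
  have hvX : 0 ≤ v * X := mul_nonneg hv hX
  have hvN : 0 ≤ v * ((N:ℝ) - 1) := mul_nonneg hv (by linarith)
  have p1 : 0 < (N:ℝ) ^ 2 + v * (N - 1) := by positivity
  have p2 : 0 < (N:ℝ) ^ 2 + v * X := by positivity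
  have p3 : 0 < (1 + X) ^ 2 + v * X := by positivity
  have d1 : HasDerivAt (fun v : ℝ => (N:ℝ) ^ 2 + v * (N - 1)) ((N:ℝ) - 1) v := by
    have := ((hasDerivAt_id' v).mul_const ((N:ℝ) - 1)).const_add ((N:ℝ) ^ 2)
    simpa using this
  have d2 : HasDerivAt (fun v : ℝ => (N:ℝ) ^ 2 + v * X) X v := by
    have := ((hasDerivAt_id' v).mul_const X).const_add ((N:ℝ) ^ 2)
    simpa using this
  have d3 : HasDerivAt (fun v : ℝ => (1 + X) ^ 2 + v * X) X v := by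
    have := ((hasDerivAt_id' v).mul_const X).const_add ((1 + X) ^ 2)
    simpa using this
  have h := (((d1.log p1.ne').const_mul ((N:ℝ) + 3)).fun_sub
    ((d2.log p2.ne').const_mul ((N:ℝ) + 1))).fun_sub ((d3.log p3.ne').const_mul 2)
  unfold gl
  refine h.congr_deriv ?_
  obtain ⟨A, hA⟩ : ∃ A : ℝ, A = (N:ℝ) ^ 2 + v * (N - 1) := ⟨_, rfl⟩
  obtain ⟨B, hB⟩ : ∃ B : ℝ, B = (N:ℝ) ^ 2 + v * X := ⟨_, rfl⟩
  obtain ⟨D, hD⟩ : ∃ D : ℝ, D = (1 + X) ^ 2 + v * X := ⟨_, rfl⟩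
  rw [← hA, ← hB, ← hD]
  rw [← hA] at p1
  rw [← hB] at p2
  rw [← hD] at p3
  have q1 := p1.ne'
  have q2 := p2.ne'
  have q3 := p3.ne'
  field_simp
  rw [hA, hB, hD]
  ring

theorem gl_brk {N : ℕ} (hN : 2 ≤ N) {X v : ℝ} (hX : 0 ≤ X) (hv : 0 ≤ v)
    (hv' : v * (N + 1) ≤ (N:ℝ) ^ 2) :
    0 < (N:ℝ) ^ 2 * (N + 3) + X * (4 * (N:ℝ) ^ 2 + v * ((N + 1) * (N:ℝ) ^ 2 + 2)) +
        X ^ 2 * ((N + 1) * (N:ℝ) ^ 2 - 2 * (N - 1) * v) := by
  have hN' : (2:ℝ) ≤ N := by exact_mod_cast hN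
  have h1 : 0 ≤ (N + 1) * (N:ℝ) ^ 2 - 2 * (N - 1) * v := by
    have e1 : (N - 1) * v ≤ v * (N + 1) := by nlinarith
    have e2 : 2 * (N - 1) * v ≤ 2 * (N:ℝ) ^ 2 := by linarith
    nlinarith [sq_nonneg (N:ℝ)]
  positivity

theorem gl_lt {N : ℕ} (hN : 2 ≤ N) {X v v' : ℝ} (hX : 0 ≤ X) (hX0 : X < N - 1) (hv : 0 ≤ v)
    (hvv : v < v') (hv' : v' * (N + 1) ≤ (N:ℝ) ^ 2) : gl N X v < gl N X v' := by
  have hN' : (2:ℝ) ≤ N := by exact_mod_cast hN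
  have hmono : StrictMonoOn (gl N X) (Icc v v') := by
    refine strictMonoOn_of_deriv_pos (convex_Icc _ _) ?_ ?_
    · intro u hu
      exact (gl_hasDeriv hN hX (hv.trans hu.1)).continuousAt.continuousWithinAt
    · intro u hu
      rw [interior_Icc] at hu
      have hu0 : 0 ≤ u := hv.trans hu.1.le
      rw [(gl_hasDeriv hN hX hu0).deriv]
      have hb := gl_brk hN hX hu0 (by nlinarith [hu.2])
      have hvX : 0 ≤ u * X := mul_nonneg hu0 hX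
      have hvN : 0 ≤ u * ((N:ℝ) - 1) := mul_nonneg hu0 (by linarith)
      refine mul_pos (div_pos (by linarith) ?_) hb
      positivity
  exact hmono (left_mem_Icc.2 hvv.le) (right_mem_Icc.2 hvv.le) hvv

theorem gl_gt {N : ℕ} (hN : 2 ≤ N) {X v v' : ℝ} (hX0 : (N:ℝ) - 1 < X) (hv : 0 ≤ v)
    (hvv : v < v') (hv' : v' * (N + 1) ≤ (N:ℝ) ^ 2) : gl N X v' < gl N X v := by
  have hN' : (2:ℝ) ≤ N := by exact_mod_cast hN
  have hX : 0 ≤ X := by linarith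
  have hmono : StrictAntiOn (gl N X) (Icc v v') := by
    refine strictAntiOn_of_deriv_neg (convex_Icc _ _) ?_ ?_
    · intro u hu
      exact (gl_hasDeriv hN hX (hv.trans hu.1)).continuousAt.continuousWithinAt
    · intro u hu
      rw [interior_Icc] at hu
      have hu0 : 0 ≤ u := hv.trans hu.1.le
      rw [(gl_hasDeriv hN hX hu0).deriv]
      have hb := gl_brk hN hX hu0 (by nlinarith [hu.2])
      have hvX : 0 ≤ u * X := mul_nonneg hu0 hX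
      have hvN : 0 ≤ u * ((N:ℝ) - 1) := mul_nonneg hu0 (by linarith)
      refine mul_neg_of_neg_of_pos (div_neg_of_neg_of_pos (by linarith) ?_) hb
      positivity
  exact hmono (left_mem_Icc.2 hvv.le) (right_mem_Icc.2 hvv.le) hvv

/-- the weight -/
noncomputable def WW (N : ℕ) (v X : ℝ) : ℝ :=
  (((N:ℝ) ^ 2 + v * X) ^ (N + 1) * ((1 + X) ^ 2 + v * X) ^ 2)⁻¹

noncomputable def lam (N : ℕ) (v : ℝ) : ℝ := ((N:ℝ) ^ 2 + v * (N - 1)) ^ (N + 3)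

theorem lam_pos {N : ℕ} (hN : 2 ≤ N) {v : ℝ} (hv : 0 ≤ v) : 0 < lam N v := by
  have hN' : (2:ℝ) ≤ N := by exact_mod_cast hN
  have hvN : 0 ≤ v * ((N:ℝ) - 1) := mul_nonneg hv (by linarith)
  unfold lam
  positivity

theorem WW_pos {N : ℕ} (hN : 2 ≤ N) {v X : ℝ} (hv : 0 ≤ v) (hX : 0 ≤ X) : 0 < WW N v X := by
  have hN' : (2:ℝ) ≤ N := by exact_mod_cast hN
  have hvX : 0 ≤ v * X := mul_nonneg hv hX
  unfold WW
  positivity

theorem log_WW {N : ℕ} (hN : 2 ≤ N) {v X : ℝ} (hv : 0 ≤ v) (hX : 0 ≤ X) :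
    Real.log (lam N v * WW N v X) = gl N X v := by
  have hN' : (2:ℝ) ≤ N := by exact_mod_cast hN
  have hvX : 0 ≤ v * X := mul_nonneg hv hX
  have hvN : 0 ≤ v * ((N:ℝ) - 1) := mul_nonneg hv (by linarith)
  have p1 : 0 < (N:ℝ) ^ 2 + v * (N - 1) := by positivity
  have p2 : 0 < (N:ℝ) ^ 2 + v * X := by positivity
  have p3 : 0 < (1 + X) ^ 2 + v * X := by positivity
  rw [Real.log_mul (lam_pos hN hv).ne' (WW_pos hN hv hX).ne']
  unfold lam WW gl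
  rw [Real.log_inv, Real.log_mul (pow_pos p2 _).ne' (pow_pos p3 _).ne', Real.log_pow, Real.log_pow,
    Real.log_pow]
  push_cast
  ring

theorem WW_lt {N : ℕ} (hN : 2 ≤ N) {X v v' : ℝ} (hX : 0 ≤ X) (hX0 : X < N - 1) (hv : 0 ≤ v)
    (hvv : v < v') (hv' : v' * (N + 1) ≤ (N:ℝ) ^ 2) :
    lam N v * WW N v X < lam N v' * WW N v' X := by
  have hv0 : 0 ≤ v' := hv.trans hvv.le
  rw [← Real.log_lt_log_iff (mul_pos (lam_pos hN hv) (WW_pos hN hv hX))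
    (mul_pos (lam_pos hN hv0) (WW_pos hN hv0 hX)), log_WW hN hv hX, log_WW hN hv0 hX]
  exact gl_lt hN hX hX0 hv hvv hv'

theorem WW_gt {N : ℕ} (hN : 2 ≤ N) {X v v' : ℝ} (hX0 : (N:ℝ) - 1 < X) (hv : 0 ≤ v)
    (hvv : v < v') (hv' : v' * (N + 1) ≤ (N:ℝ) ^ 2) :
    lam N v' * WW N v' X < lam N v * WW N v X := by
  have hN' : (2:ℝ) ≤ N := by exact_mod_cast hN
  have hX : 0 ≤ X := by linarith
  have hv0 : 0 ≤ v' := hv.trans hvv.le
  rw [← Real.log_lt_log_iff (mul_pos (lam_pos hN hv0) (WW_pos hN hv0 hX))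
    (mul_pos (lam_pos hN hv) (WW_pos hN hv hX)), log_WW hN hv hX, log_WW hN hv0 hX]
  exact gl_gt hN hX0 hv hvv hv'

/-- integrand of `Ψ` -/
noncomputable def psi (N : ℕ) (v y : ℝ) : ℝ := y ^ 4 * (1 - y ^ 2) * WW N v ((N - 1) * y ^ 2)

noncomputable def Psi (N : ℕ) (v : ℝ) : ℝ := ∫ y in Ioi (0:ℝ), psi N v y

theorem X_nonneg {N : ℕ} (hN : 2 ≤ N) (y : ℝ) : 0 ≤ ((N:ℝ) - 1) * y ^ 2 := by
  have hN' : (2:ℝ) ≤ N := by exact_mod_cast hN
  exact mul_nonneg (by linarith) (sq_nonneg _)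

theorem psi_cont {N : ℕ} (hN : 2 ≤ N) {v : ℝ} (hv : 0 ≤ v) : Continuous (psi N v) := by
  have hN' : (2:ℝ) ≤ N := by exact_mod_cast hN
  unfold psi WW
  refine (by fun_prop : Continuous fun y : ℝ => y ^ 4 * (1 - y ^ 2)).mul
    (Continuous.inv₀ (by fun_prop) (fun y => ?_))
  have h1 := X_nonneg hN y
  have hvX : 0 ≤ v * (((N:ℝ) - 1) * y ^ 2) := mul_nonneg hv h1
  positivity

theorem WW_le {N : ℕ} (hN : 2 ≤ N) {v : ℝ} (hv : 0 ≤ v) (y : ℝ) :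
    WW N v ((N - 1) * y ^ 2) ≤ ((1 + y ^ 2) ^ 4)⁻¹ := by
  have hN' : (2:ℝ) ≤ N := by exact_mod_cast hN
  have h1 := X_nonneg hN y
  have hvX : 0 ≤ v * (((N:ℝ) - 1) * y ^ 2) := mul_nonneg hv h1
  unfold WW
  refine inv_anti₀ (by positivity) ?_
  have e1 : 1 + y ^ 2 ≤ 1 + ((N:ℝ) - 1) * y ^ 2 := by nlinarith [sq_nonneg y]
  have e2 : (1 + y ^ 2) ^ 2 ≤ (1 + ((N:ℝ) - 1) * y ^ 2) ^ 2 :=
    pow_le_pow_left₀ (by positivity) e1 2
  have e3 : (1 + y ^ 2) ^ 4 ≤ ((1 + ((N:ℝ) - 1) * y ^ 2) ^ 2 + v * (((N:ℝ) - 1) * y ^ 2)) ^ 2 := by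
    have : (1 + y ^ 2) ^ 4 = ((1 + y ^ 2) ^ 2) ^ 2 := by ring
    rw [this]
    exact pow_le_pow_left₀ (by positivity) (by linarith) 2
  have e4 : (1:ℝ) ≤ ((N:ℝ) ^ 2 + v * (((N:ℝ) - 1) * y ^ 2)) ^ (N + 1) := by
    apply one_le_pow₀
    nlinarith
  calc (1 + y ^ 2) ^ 4 = 1 * (1 + y ^ 2) ^ 4 := by ring
    _ ≤ _ := mul_le_mul e4 e3 (by positivity) (by positivity)

theorem psi_int {N : ℕ} (hN : 2 ≤ N) {v : ℝ} (hv : 0 ≤ v) : IntegrableOn (psi N v) (Ioi 0) := by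
  refine dom (psi_cont hN hv) 1 (fun y _ => ?_)
  have hW := WW_pos hN hv (X_nonneg hN y)
  have hW' := WW_le hN hv y
  unfold psi
  rw [abs_mul, abs_mul, abs_of_pos hW, abs_of_nonneg (by positivity : 0 ≤ y ^ 4)]
  have e1 : |1 - y ^ 2| ≤ 1 + y ^ 2 := by
    rw [abs_le]; constructor <;> nlinarith [sq_nonneg y]
  have hp : (0:ℝ) < 1 + y ^ 2 := by positivity
  calc y ^ 4 * |1 - y ^ 2| * WW N v ((N - 1) * y ^ 2) ≤
        y ^ 4 * (1 + y ^ 2) * ((1 + y ^ 2) ^ 4)⁻¹ := by gcongr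
    _ = (y ^ 2 * (1 + y ^ 2)⁻¹) ^ 2 * (1 + y ^ 2)⁻¹ := by field_simp
    _ ≤ 1 ^ 2 * (1 + y ^ 2)⁻¹ := by
        have : y ^ 2 * (1 + y ^ 2)⁻¹ ≤ 1 := by
          rw [← div_eq_mul_inv, div_le_one hp]; linarith
        gcongr
    _ = 1 * (1 + y ^ 2)⁻¹ := by ring

theorem Psi_sign {N : ℕ} (hN : 2 ≤ N) {v v' : ℝ} (hv : 0 ≤ v) (hvv : v < v')
    (hv' : v' * (N + 1) ≤ (N:ℝ) ^ 2) (h0 : Psi N v = 0) : 0 < Psi N v' := by
  have hN' : (2:ℝ) ≤ N := by exact_mod_cast hN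
  have hv0 : 0 ≤ v' := hv.trans hvv.le
  have hl := lam_pos hN hv
  have hl' := lam_pos hN hv0
  have key : 0 < ∫ y in Ioi (0:ℝ), (lam N v' * psi N v' y - lam N v * psi N v y) := by
    have hform : ∀ y, lam N v' * psi N v' y - lam N v * psi N v y =
        y ^ 4 * (1 - y ^ 2) * (lam N v' * WW N v' ((N - 1) * y ^ 2) -
          lam N v * WW N v ((N - 1) * y ^ 2)) := by
      intro y; unfold psi; ring
    refine pos_of (((psi_cont hN hv0).const_smul (lam N v')).sub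
      ((psi_cont hN hv).const_smul (lam N v))) (((psi_int hN hv0).const_mul _).sub
      ((psi_int hN hv).const_mul _)) ?_ (s := 1 / 2) (by norm_num) ?_
    · intro y hy
      rw [hform]
      rcases lt_trichotomy y 1 with h | h | h
      · have hy2 : y ^ 2 < 1 := by nlinarith
        have hX : ((N:ℝ) - 1) * y ^ 2 < N - 1 := by nlinarith
        have := WW_lt hN (X_nonneg hN y) hX hv hvv hv'
        have h1 : 0 < 1 - y ^ 2 := by linarith
        have h2 := sub_pos.2 this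
        positivity
      · subst h; simp
      · have hy2 : 1 < y ^ 2 := by nlinarith
        have hX : (N:ℝ) - 1 < ((N:ℝ) - 1) * y ^ 2 := by nlinarith
        have := WW_gt hN hX hv hvv hv'
        have h1 : 0 < y ^ 2 - 1 := by linarith
        have h2 := sub_pos.2 this
        have h3 : y ^ 4 * (1 - y ^ 2) * (lam N v' * WW N v' ((N - 1) * y ^ 2) -
          lam N v * WW N v ((N - 1) * y ^ 2)) = y ^ 4 * (y ^ 2 - 1) *
          (lam N v * WW N v ((N - 1) * y ^ 2) - lam N v' * WW N v' ((N - 1) * y ^ 2)) := by ring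
        rw [h3]
        positivity
    · show 0 < lam N v' * psi N v' (1 / 2) - lam N v * psi N v (1 / 2)
      rw [hform]
      have hX : ((N:ℝ) - 1) * (1 / 2) ^ 2 < N - 1 := by nlinarith
      have := WW_lt hN (X_nonneg hN (1 / 2)) hX hv hvv hv'
      have h2 := sub_pos.2 this
      have h1 : (0:ℝ) < (1 / 2) ^ 4 * (1 - (1 / 2) ^ 2) := by norm_num
      exact mul_pos h1 h2
  rw [integral_sub ((psi_int hN hv0).const_mul _) ((psi_int hN hv).const_mul _),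
    integral_const_mul, integral_const_mul] at key
  unfold Psi at h0 ⊢
  rw [h0, mul_zero, sub_zero] at key
  exact (mul_pos_iff_of_pos_left hl').1 key

/-- `S` in terms of `Ψ`. -/
theorem SS_eq {N : ℕ} (hN : 2 ≤ N) {r : ℝ} (h0 : 0 < r) :
    ∃ C : ℝ, 0 < C ∧ SS N r = C * Psi N ((N * r) ^ 2 / (1 + N * r)) := by
  have hN' : (2:ℝ) ≤ N := by exact_mod_cast hN
  have hN1 : (0:ℝ) < N - 1 := by linarith
  have hT : 0 < 1 + (N:ℝ) * r := by positivity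
  set η := ((N:ℝ) - 1) / (1 + N * r) with hη
  have hη0 : 0 < η := div_pos hN1 hT
  set b := Real.sqrt η with hb
  have hb0 : 0 < b := Real.sqrt_pos.2 hη0
  have hb2 : b ^ 2 = η := Real.sq_sqrt hη0.le
  set v := ((N:ℝ) * r) ^ 2 / (1 + N * r) with hv
  have hv0 : 0 ≤ v := by positivity
  refine ⟨b * (η ^ 2 * (N - 1) * (N:ℝ) ^ (2 * (N + 1))), by positivity, ?_⟩
  have hs := integral_comp_mul_left_Ioi (si N r) 0 hb0
  rw [mul_zero, smul_eq_mul] at hs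
  have hSS : SS N r = b * ∫ y in Ioi (0:ℝ), si N r (b * y) := by
    unfold SS
    rw [hs]
    field_simp
  rw [hSS, mul_assoc]
  congr 1
  unfold Psi
  rw [← integral_const_mul]
  congr 1
  ext y
  unfold si psi WW f
  have hX := X_nonneg hN y
  set X := ((N:ℝ) - 1) * y ^ 2 with hXdef
  have hvX : 0 ≤ v * X := mul_nonneg hv0 hX
  have e0 : (b * y) ^ 2 = X / (1 + N * r) := by
    rw [mul_pow, hb2, hη, hXdef]; ring
  have e1 : (b * y) ^ 4 = η ^ 2 * y ^ 4 := by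
    have : (b * y) ^ 4 = (b ^ 2) ^ 2 * y ^ 4 := by ring
    rw [this, hb2]
  have e2 : ((N:ℝ) - 1) - (1 + N * r) * (b * y) ^ 2 = (N - 1) * (1 - y ^ 2) := by
    rw [e0, hXdef]; field_simp
  have e3 : 1 + r ^ 2 * (b * y) ^ 2 = ((N:ℝ) ^ 2 + v * X) / (N:ℝ) ^ 2 := by
    rw [e0, hv]; field_simp
  have e4 : (1 + 1 ^ 2 * (b * y) ^ 2) * (1 + (1 + N * r) ^ 2 * (b * y) ^ 2) =
      (1 + X) ^ 2 + v * X := by
    rw [e0, hv]; field_simp; ring
  have e5 : ((1 + 1 ^ 2 * (b * y) ^ 2)⁻¹) ^ 2 * ((1 + (1 + N * r) ^ 2 * (b * y) ^ 2)⁻¹) ^ 2 =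
      (((1 + X) ^ 2 + v * X) ^ 2)⁻¹ := by
    rw [← e4, ← mul_pow, ← mul_inv, inv_pow]
  have e6 : ((1 + r ^ 2 * (b * y) ^ 2)⁻¹) ^ (N + 1) =
      (N:ℝ) ^ (2 * (N + 1)) * ((((N:ℝ) ^ 2 + v * X) ^ (N + 1)))⁻¹ := by
    rw [e3, inv_div, div_pow, pow_mul]
    rfl
  rw [mul_assoc ((b * y) ^ 4 * _ * _), e5, e6, e1, e2, mul_inv]
  ring

theorem SS_neg_one {r : ℝ} (h0 : 0 < r) : SS 1 r < 0 := by
  have h : 0 < ∫ x in Ioi (0:ℝ), -(si 1 r x) := by
    have hpos : ∀ x, 0 < x → 0 < -(si 1 r x) := by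
      intro x hx
      unfold si
      have h1 := f_pos r x
      have h2 := f_pos 1 x
      have h3 := f_pos (1 + (1:ℕ) * r) x
      have e : -(x ^ 4 * (((1:ℕ):ℝ) - 1 - (1 + (1:ℕ) * r) * x ^ 2) * f r x ^ (1 + 1) *
        f 1 x ^ 2 * f (1 + (1:ℕ) * r) x ^ 2) = x ^ 4 * ((1 + (1:ℕ) * r) * x ^ 2) * f r x ^ (1 + 1) *
        f 1 x ^ 2 * f (1 + (1:ℕ) * r) x ^ 2 := by push_cast; ring
      rw [e]
      positivity
    exact pos_of (si_cont 1 r).neg (si_int h0.le).neg (fun x hx => (hpos x hx).le) one_pos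
      (hpos 1 one_pos)
  rw [integral_neg] at h
  unfold SS
  linarith

theorem SS_sign {N : ℕ} (hN : 2 ≤ N) {r r' : ℝ} (h0 : 0 < r) (hrr : r < r') (h1 : r' < 1)
    (hS : SS N r = 0) : 0 < SS N r' := by
  have hN' : (2:ℝ) ≤ N := by exact_mod_cast hN
  obtain ⟨C, hC, e⟩ := SS_eq hN h0
  obtain ⟨C', hC', e'⟩ := SS_eq hN (h0.trans hrr)
  rw [e'] 
  have hP : Psi N ((N * r) ^ 2 / (1 + N * r)) = 0 := by
    rw [hS] at e
    rcases mul_eq_zero.1 e.symm with h | h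
    · exact absurd h hC.ne'
    · exact h
  refine mul_pos hC' (Psi_sign hN (by positivity) ?_ ?_ hP)
  · have hr' : 0 < r' := h0.trans hrr
    rw [div_lt_div_iff₀ (by positivity) (by positivity)]
    have e1 : (N * r') ^ 2 * (1 + N * r) - (N * r) ^ 2 * (1 + N * r') =
      (N:ℝ) ^ 2 * (r' - r) * (r' + r + N * r * r') := by ring
    have e2 : 0 < (N:ℝ) ^ 2 * (r' - r) * (r' + r + N * r * r') := by
      have : 0 < r' - r := by linarith
      positivity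
    linarith
  · have hr' : 0 < r' := h0.trans hrr
    rw [div_mul_eq_mul_div, div_le_iff₀ (by positivity)]
    have e1 : (N:ℝ) ^ 2 * (1 + N * r') - (N * r') ^ 2 * (N + 1) =
      (N:ℝ) ^ 2 * (1 - r') * (1 + (N + 1) * r') := by ring
    have e2 : 0 ≤ (N:ℝ) ^ 2 * (1 - r') * (1 + (N + 1) * r') := by
      have : 0 ≤ 1 - r' := by linarith
      positivity
    linarith

/-- the curve function is bounded by its endpoint values. -/
theorem Fc_le_max (N : ℕ) {r : ℝ} (h0 : 0 ≤ r) (h1 : r ≤ 1) :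
    Fc N r ≤ max (Fc N 0) (Fc N 1) := by
  rcases Nat.eq_zero_or_pos N with hN0 | hN0
  · subst hN0
    have : ∀ r s, Fc 0 r = Fc 0 s := by
      intro r s
      unfold Fc cc Ka ka
      simp
    rw [this r 0]
    exact le_max_left _ _
  obtain ⟨m, hm, hmax⟩ := isCompact_Icc.exists_isMaxOn (nonempty_Icc.2 zero_le_one)
    ((Fc_cont N).continuousOn (s := Icc (0:ℝ) 1))
  have hle : Fc N r ≤ Fc N m := hmax ⟨h0, h1⟩
  refine hle.trans ?_
  rcases hm.1.eq_or_lt with h | hm0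
  · rw [← h]; exact le_max_left _ _
  rcases hm.2.eq_or_lt with h | hm1
  · rw [h]; exact le_max_right _ _
  exfalso
  have hloc : IsLocalMax (Fc N) m := hmax.isLocalMax (Icc_mem_nhds hm0 hm1)
  have hN' : (0:ℝ) < N := by exact_mod_cast hN0
  have hfac : ∀ u : ℝ, 0 < u → u < 1 →
      0 < 4 * N * (u * (1 - u) * (2 + N * u) * (1 + (N + 1) * u)) := by
    intro u hu0 hu1
    have : 0 < 1 - u := by linarith
    positivity
  have hder := hloc.hasDerivAt_eq_zero (Fc_hasDeriv hm0 hm1)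
  have hS : SS N m = 0 := by
    have hs := (Real.sqrt_pos.2 (cc_pos N m))
    rw [div_eq_zero_iff] at hder
    rcases hder with h | h
    · rcases mul_eq_zero.1 h with h | h
      · exact absurd h (hfac m hm0 hm1).ne'
      · exact h
    · exact absurd h (by positivity)
  rcases Nat.lt_or_ge N 2 with hN2 | hN2
  · have : N = 1 := by omega
    subst this
    exact absurd hS (SS_neg_one hm0).ne
  · have hmono : StrictMonoOn (Fc N) (Icc m 1) := by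
      refine strictMonoOn_of_deriv_pos (convex_Icc _ _) (Fc_cont N).continuousOn ?_
      intro u hu
      rw [interior_Icc] at hu
      rw [(Fc_hasDeriv (hm0.trans hu.1) hu.2).deriv]
      have hS' := SS_sign hN2 hm0 hu.1 hu.2 hS
      have hs := (Real.sqrt_pos.2 (cc_pos N u))
      exact div_pos (mul_pos (hfac u (hm0.trans hu.1) hu.2) hS') (by positivity)
    have h2 := hmono (left_mem_Icc.2 hm1.le) (right_mem_Icc.2 hm1.le) hm1
    have h3 : Fc N 1 ≤ Fc N m := hmax ⟨zero_le_one, le_rfl⟩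
    linarith

/-- upper bound for `I` on the constraint set. -/
theorem I_le_max {ι : Type*} [Fintype ι] {N : ℕ} (hcard : Fintype.card ι = N + 2) {a : ι → ℝ}
    (h0 : ∑ i, a i = 0) (h1 : ∑ i, a i ^ 2 = 1) : I a ≤ max (Fc N 0) (Fc N 1) := by
  obtain ⟨b, hb⟩ := exists_maxi (ι := ι) (by omega)
  refine (hb.2.2 a h0 h1).trans ?_
  obtain ⟨p, q, hq0, hqp, hp, hpq, hI⟩ := struct hcard hb
  rw [hI, G_eq hp hpq]
  exact Fc_le_max N (by positivity) ((div_le_one hp).2 hqp)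

end Pool.Agent.R755.Xp
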