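import Mathlib
import Pool.Agent.R755.Xp.Sign

open MeasureTheory Set Real

namespace Pool.Agent.R755.Xp

/-- `A_k = ∫ (1+x²)^{-k} (1+b²x²)^{-1}`. -/
noncomputable def Ab (b : ℝ) (k : ℕ) : ℝ := ∫ x in Ioi (0:ℝ), ((1 + x ^ 2) ^ k)⁻¹ * f b x

theorem Ab_int {b : ℝ} (hb : b ≠ 0) (k : ℕ) :
    IntegrableOn (fun x => ((1 + x ^ 2) ^ k)⁻¹ * f b x) (Ioi 0) := by
  refine dom ((Continuous.inv₀ (by fun_prop) (fun s => by positivity)).mul (f_cont b))
    (1 + (b ^ 2)⁻¹) (fun x _ => ?_)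
  have h1 : ((1 + x ^ 2) ^ k)⁻¹ ≤ 1 :=
    inv_le_one_of_one_le₀ (one_le_pow₀ (by nlinarith [sq_nonneg x]))
  have h2 := f_pos b x
  rw [abs_of_nonneg (by positivity)]
  calc ((1 + x ^ 2) ^ k)⁻¹ * f b x ≤ 1 * f b x := by gcongr
    _ = f b x := one_mul _
    _ ≤ _ := tail_dom hb

theorem Ab_zero {b : ℝ} (hb : 0 < b) : Ab b 0 = π / (2 * b) := by
  unfold Ab f
  simp only [pow_zero, inv_one, one_mul]
  exact K1 hb

theorem Ab_succ {b : ℝ} (hb : 1 < b) (k : ℕ) :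
    (b ^ 2 - 1) * Ab b (k + 1) =
      b ^ 2 * Ab b k - ∫ x in Ioi (0:ℝ), ((1 + x ^ 2) ^ (k + 1))⁻¹ := by
  have hb0 : b ≠ 0 := by linarith
  unfold Ab
  rw [← integral_const_mul, ← integral_const_mul, ← integral_sub ((Ab_int hb0 k).const_mul _)
    (int_pow k)]
  congr 1
  ext x
  unfold f
  have h1 : (1 + b ^ 2 * x ^ 2) ≠ 0 := tail_pos.ne'
  have h2 : (1 + x ^ 2 : ℝ) ≠ 0 := by positivity
  have h3 : (1 + x ^ 2 : ℝ) ^ k ≠ 0 := pow_ne_zero _ h2
  rw [pow_succ]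
  field_simp
  ring

theorem A44 : Ab 4 4 = 1573 / 20000 * π := by
  have h0 := Ab_zero (b := 4) (by norm_num)
  have h1 := Ab_succ (b := 4) (by norm_num) 0
  have h2 := Ab_succ (b := 4) (by norm_num) 1
  have h3 := Ab_succ (b := 4) (by norm_num) 2
  have h4 := Ab_succ (b := 4) (by norm_num) 3
  simp only [zero_add, Nat.reduceAdd] at h1 h2 h3 h4
  rw [B1] at h1
  rw [B2] at h2
  rw [B3] at h3
  rw [B4] at h4
  rw [h0] at h1
  have e1 : Ab 4 1 = π / 10 := by linarith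
  rw [e1] at h2
  have e2 : Ab 4 2 = 9 / 100 * π := by linarith
  rw [e2] at h3
  have e3 : Ab 4 3 = 167 / 2000 * π := by linarith
  rw [e3] at h4
  linarith

theorem A55 : Ab 5 5 = 8135 / 124416 * π := by
  have h0 := Ab_zero (b := 5) (by norm_num)
  have h1 := Ab_succ (b := 5) (by norm_num) 0
  have h2 := Ab_succ (b := 5) (by norm_num) 1
  have h3 := Ab_succ (b := 5) (by norm_num) 2
  have h4 := Ab_succ (b := 5) (by norm_num) 3
  have h5 := Ab_succ (b := 5) (by norm_num) 4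
  simp only [zero_add, Nat.reduceAdd] at h1 h2 h3 h4 h5
  rw [B1] at h1
  rw [B2] at h2
  rw [B3] at h3
  rw [B4] at h4
  rw [B5] at h5
  rw [h0] at h1
  have e1 : Ab 5 1 = π / 12 := by linarith
  rw [e1] at h2
  have e2 : Ab 5 2 = 11 / 144 * π := by linarith
  rw [e2] at h3
  have e3 : Ab 5 3 = 31 / 432 * π := by linarith
  rw [e3] at h4
  have e4 : Ab 5 4 = 1415 / 20736 * π := by linarith
  rw [e4] at h5
  linarith

theorem Fc_zero (N : ℕ) : Fc N 0 = Real.sqrt 2 * (π / 4) := by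
  unfold Fc cc Ka ka
  have h : ∀ x : ℝ, f 0 x ^ N * f 1 x * f (1 + N * 0) x =
      (1 + 1 ^ 2 * x ^ 2)⁻¹ * (1 + 1 ^ 2 * x ^ 2)⁻¹ := by
    intro x
    rw [f_zero, one_pow, one_mul, mul_zero, add_zero]
    rfl
  simp only [h]
  rw [K2eq one_pos]
  norm_num

theorem Fc_one (N : ℕ) : Fc N 1 = Real.sqrt ((N + 1) * (N + 2)) * Ab (N + 1) (N + 1) := by
  unfold Fc cc Ka ka Ab
  have h : ∀ x : ℝ, f 1 x ^ N * f 1 x * f (1 + N * 1) x =
      ((1 + x ^ 2) ^ (N + 1))⁻¹ * f (N + 1) x := by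
    intro x
    rw [f1, ← pow_succ, inv_pow, mul_one, add_comm (1:ℝ) (N:ℝ)]
  simp only [h]
  congr 2
  ring

theorem Fc3 : Fc 3 1 ≤ Fc 3 0 := by
  rw [Fc_one, Fc_zero]
  have h := A44
  have e : (((3:ℕ):ℝ) + 1) = 4 := by norm_num
  rw [e, h]
  have e2 : (4 * (((3:ℕ):ℝ) + 2)) = 20 := by norm_num
  rw [e2]
  have h1 : Real.sqrt 20 * (1573 / 20000) ≤ Real.sqrt 2 * (1 / 4) := by
    apply le_of_sq_le_sq _ (by positivity)
    rw [mul_pow, mul_pow, Real.sq_sqrt (by norm_num), Real.sq_sqrt (by norm_num)]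
    norm_num
  calc Real.sqrt 20 * (1573 / 20000 * π) = Real.sqrt 20 * (1573 / 20000) * π := by ring
    _ ≤ Real.sqrt 2 * (1 / 4) * π := by gcongr
    _ = _ := by ring

theorem Fc4 : Fc 4 0 < Fc 4 1 := by
  rw [Fc_one, Fc_zero]
  have h := A55
  have e : (((4:ℕ):ℝ) + 1) = 5 := by norm_num
  rw [e, h]
  have e2 : (5 * (((4:ℕ):ℝ) + 2)) = 30 := by norm_num
  rw [e2]
  have h1 : Real.sqrt 2 * (1 / 4) < Real.sqrt 30 * (8135 / 124416) := by
    apply lt_of_pow_lt_pow_left₀ 2 (by positivity)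
    rw [mul_pow, mul_pow, Real.sq_sqrt (by norm_num), Real.sq_sqrt (by norm_num)]
    norm_num
  calc Real.sqrt 2 * (π / 4) = Real.sqrt 2 * (1 / 4) * π := by ring
    _ < Real.sqrt 30 * (8135 / 124416) * π := by
        have := Real.pi_pos
        gcongr
    _ = _ := by ring

/-- explicit vectors -/
theorem I_eq_G {ι : Type*} [Fintype ι] {N : ℕ} (hcard : Fintype.card ι = N + 2)
    {a : ι → ℝ} {i k : ι} (hik : i ≠ k) {q : ℝ} (hql : ∀ l, l ≠ i → l ≠ k → a l = q)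
    (hak : a k = -(a i + N * q)) :
    I a = G N (a i) q ∧ ∑ l, a l = 0 ∧
      ∑ l, a l ^ 2 = N * q ^ 2 + a i ^ 2 + (a i + N * q) ^ 2 := by
  classical
  set T := (Finset.univ.erase i).erase k with hT
  have hkT : k ∈ Finset.univ.erase i := Finset.mem_erase.2 ⟨hik.symm, Finset.mem_univ k⟩
  have hTcard : T.card = N := by
    rw [hT, Finset.card_erase_of_mem hkT, Finset.card_erase_of_mem (Finset.mem_univ i),
      Finset.card_univ, hcard]
    omega
  have hTq : ∀ l ∈ T, a l = q := by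
    intro l hl
    simp only [hT, Finset.mem_erase] at hl
    exact hql l hl.2.1 hl.1
  refine ⟨?_, ?_, ?_⟩
  · unfold I G
    congr 1
    ext s
    unfold P
    rw [← Finset.mul_prod_erase _ _ (Finset.mem_univ i), ← Finset.mul_prod_erase _ _ hkT,
      Finset.prod_congr rfl (fun l hl => by rw [hTq l hl]), Finset.prod_const, hTcard,
      hak, f_neg]
    ring
  · rw [← Finset.add_sum_erase _ _ (Finset.mem_univ i), ← Finset.add_sum_erase _ _ hkT,
      Finset.sum_congr rfl hTq, Finset.sum_const, hTcard, nsmul_eq_mul, hak]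
    ring
  · rw [← Finset.add_sum_erase _ _ (Finset.mem_univ i), ← Finset.add_sum_erase _ _ hkT,
      Finset.sum_congr rfl (fun l hl => by rw [hTq l hl]), Finset.sum_const, hTcard, nsmul_eq_mul,
      hak]
    ring

/-- monotonicity step: padding `w` by a zero. -/
theorem Fc_step (N : ℕ) : Fc N 1 ≤ max (Fc (N + 1) 0) (Fc (N + 1) 1) := by
  set c : ℝ := Real.sqrt ((N + 1) * (N + 2)) with hc
  have hc0 : 0 < c := Real.sqrt_pos.2 (by positivity)
  have hc2 : c ^ 2 = (N + 1) * (N + 2) := Real.sq_sqrt (by positivity)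
  set w : Fin (N + 2) → ℝ := fun l => if l = Fin.last (N + 1) then -(c⁻¹ + N * c⁻¹) else c⁻¹ with hw
  have h0l : (0 : Fin (N + 2)) ≠ Fin.last (N + 1) := by
    intro h
    have := congrArg Fin.val h
    simp at this
  have hw0 : w 0 = c⁻¹ := by rw [hw]; simp only [h0l, if_false]
  obtain ⟨e1, e2, e3⟩ := I_eq_G (N := N) (a := w) (by simp) (i := 0) (k := Fin.last (N + 1)) h0l
    (q := c⁻¹) (fun l _ hl => by rw [hw]; simp only [hl, if_false]) (by rw [hw0]; simp [hw])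
  rw [hw0] at e1 e3
  have hone : (N:ℝ) * c⁻¹ ^ 2 + c⁻¹ ^ 2 + (c⁻¹ + N * c⁻¹) ^ 2 = 1 := by
    have : (N:ℝ) * c⁻¹ ^ 2 + c⁻¹ ^ 2 + (c⁻¹ + N * c⁻¹) ^ 2 = ((N + 1) * (N + 2)) / c ^ 2 := by
      field_simp; ring
    rw [this, hc2]
    exact div_self (by positivity)
  rw [G_eq (inv_pos.2 hc0) hone, div_self (inv_pos.2 hc0).ne'] at e1
  rw [← e1]
  have hcons : I w = I (Fin.cons 0 w : Fin (N + 3) → ℝ) := by
    unfold I P
    congr 1
    ext s
    rw [Fin.prod_univ_succ (n := N + 2)]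
    simp [f_zero]
  rw [hcons]
  refine I_le_max (by simp) ?_ ?_
  · rw [Fin.sum_univ_succ]; simp [e2]
  · rw [Fin.sum_univ_succ]; simp only [Fin.cons_zero, Fin.cons_succ]; rw [e3, hone]; norm_num

theorem Fc_const (N M : ℕ) : Fc N 0 = Fc M 0 := by rw [Fc_zero, Fc_zero]

theorem Fc_small {N : ℕ} (hN : N ≤ 3) : Fc N 1 ≤ Fc N 0 := by
  have h3 := Fc3
  have h2 : Fc 2 1 ≤ Fc 2 0 := by
    rw [Fc_const 2 3]
    exact (Fc_step 2).trans (max_le le_rfl h3)
  have h1 : Fc 1 1 ≤ Fc 1 0 := by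
    rw [Fc_const 1 2]
    exact (Fc_step 1).trans (max_le le_rfl h2)
  have h0 : Fc 0 1 ≤ Fc 0 0 := by
    rw [Fc_const 0 1]
    exact (Fc_step 0).trans (max_le le_rfl h1)
  interval_cases N <;> assumption

theorem Fc_large {N : ℕ} (hN : 4 ≤ N) : Fc N 0 < Fc N 1 := by
  induction N, hN using Nat.le_induction with
  | base => exact Fc4
  | succ m hm ih =>
    rw [Fc_const (m + 1) m]
    have h := Fc_step m
    rw [Fc_const (m + 1) m] at h
    rcases le_max_iff.1 h with h' | h'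
    · exact absurd ih (not_lt.2 h')
    · exact lt_of_lt_of_le ih h'

end Pool.Agent.R755.Xp
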