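import Mathlib
import Pool.Agent.R755.Xp.End

open MeasureTheory Set Real
open scoped FourierTransform

namespace Pool.Agent.R755.Xp

theorem char1_aux (c : ℝ) :
    Integrable (fun t : ℝ => Complex.exp (((c * t : ℝ) : ℂ) * Complex.I) *
      ((Real.exp (-|t|) : ℝ) : ℂ)) ∧
    ∫ t : ℝ, Complex.exp (((c * t : ℝ) : ℂ) * Complex.I) * ((Real.exp (-|t|) : ℝ) : ℂ) =
      ((2 * (1 + c ^ 2)⁻¹ : ℝ) : ℂ) := by
  set g : ℝ → ℂ := fun t => Complex.exp (((c * t : ℝ) : ℂ) * Complex.I) *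
      ((Real.exp (-|t|) : ℝ) : ℂ) with hg
  have h1 : ∀ t ∈ Ioi (0:ℝ), Complex.exp ((-1 + c * Complex.I) * t) = g t := by
    intro t ht
    have ht' : 0 < t := ht
    rw [hg]
    simp only
    rw [abs_of_pos ht', Complex.ofReal_exp, ← Complex.exp_add]
    congr 1
    push_cast
    ring
  have h2 : ∀ t ∈ Iic (0:ℝ), Complex.exp ((1 + c * Complex.I) * t) = g t := by
    intro t ht
    have ht' : t ≤ 0 := ht
    rw [hg]
    simp only
    rw [abs_of_nonpos ht', Complex.ofReal_exp, ← Complex.exp_add]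
    congr 1
    push_cast
    ring
  have r1 : (-1 + c * Complex.I : ℂ).re < 0 := by simp
  have r2 : 0 < (1 + c * Complex.I : ℂ).re := by simp
  have i1 : IntegrableOn g (Ioi 0) :=
    (integrableOn_congr_fun h1 measurableSet_Ioi).1 (integrableOn_exp_mul_complex_Ioi r1 0)
  have i2 : IntegrableOn g (Iic 0) :=
    (integrableOn_congr_fun h2 measurableSet_Iic).1 (integrableOn_exp_mul_complex_Iic r2 0)
  have hint : Integrable g := by
    rw [← integrableOn_univ, ← Iic_union_Ioi (a := (0:ℝ))]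
    exact i2.union i1
  refine ⟨hint, ?_⟩
  rw [← setIntegral_univ, ← Iic_union_Ioi (a := (0:ℝ)),
    setIntegral_union (Iic_disjoint_Ioi le_rfl) measurableSet_Ioi i2 i1,
    ← setIntegral_congr_fun measurableSet_Iic h2, ← setIntegral_congr_fun measurableSet_Ioi h1,
    integral_exp_mul_complex_Ioi r1, integral_exp_mul_complex_Iic r2]
  simp only [Complex.ofReal_zero, mul_zero, Complex.exp_zero]
  have n1 : (-1 + c * Complex.I : ℂ) ≠ 0 := fun h => by rw [h] at r1; simp at r1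
  have n2 : (1 + c * Complex.I : ℂ) ≠ 0 := fun h => by rw [h] at r2; simp at r2
  have n3 : (1 + c ^ 2 : ℂ) ≠ 0 := by
    have : (1 + c ^ 2 : ℝ) ≠ 0 := by positivity
    exact_mod_cast this
  push_cast
  field_simp
  ring_nf
  rw [Complex.I_sq]
  ring

/-- product Fourier integral -/
theorem charN {ι : Type*} [Fintype ι] (c : ι → ℝ) :
    ∫ x : ι → ℝ, Complex.exp (((∑ i, c i * x i : ℝ) : ℂ) * Complex.I) *
      ((Real.exp (-∑ i, |x i|) : ℝ) : ℂ) = ((∏ i, (2 * (1 + c i ^ 2)⁻¹) : ℝ) : ℂ) := by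
  have h : ∀ x : ι → ℝ, Complex.exp (((∑ i, c i * x i : ℝ) : ℂ) * Complex.I) *
      ((Real.exp (-∑ i, |x i|) : ℝ) : ℂ) =
      ∏ i, (Complex.exp (((c i * x i : ℝ) : ℂ) * Complex.I) * ((Real.exp (-|x i|) : ℝ) : ℂ)) := by
    intro x
    rw [Finset.prod_mul_distrib, ← Complex.exp_sum, ← Finset.sum_mul]
    congr 1
    · push_cast; rfl
    · rw [← Finset.sum_neg_distrib, Real.exp_sum]
      push_cast
      rfl
  simp only [h]
  rw [integral_fintype_prod_volume_eq_prod (fun i (t : ℝ) =>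
    Complex.exp (((c i * t : ℝ) : ℂ) * Complex.I) * ((Real.exp (-|t|) : ℝ) : ℂ))]
  rw [Complex.ofReal_prod]
  exact Finset.prod_congr rfl (fun i _ => (char1_aux (c i)).2)

theorem exp_sum_int {ι : Type*} [Fintype ι] :
    Integrable (fun x : ι → ℝ => Real.exp (-∑ i, |x i|)) := by
  have h1 : Integrable (fun t : ℝ => Real.exp (-|t|)) := by
    have := (char1_aux 0).1.norm
    refine this.congr (Filter.Eventually.of_forall (fun t => ?_))
    simp only [norm_mul, Complex.norm_exp_ofReal_mul_I, one_mul, Complex.norm_real,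
      Real.norm_eq_abs, Real.abs_exp]
  have h : ∀ x : ι → ℝ, Real.exp (-∑ i, |x i|) = ∏ i, Real.exp (-|x i|) := by
    intro x
    rw [← Finset.sum_neg_distrib, Real.exp_sum]
  simp only [h]
  exact Integrable.fintype_prod (f := fun _ (t : ℝ) => Real.exp (-|t|)) (fun _ => h1)

/-- `ℓ₁` norm. -/
def N1 {ι : Type*} [Fintype ι] (x : ι → ℝ) : ℝ := ∑ i, |x i|

theorem N1_cont {ι : Type*} [Fintype ι] : Continuous (N1 (ι := ι)) := by
  unfold N1; fun_prop

theorem N1_add {ι : Type*} [Fintype ι] (x y : ι → ℝ) : N1 (x + y) ≤ N1 x + N1 y := by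
  unfold N1
  rw [← Finset.sum_add_distrib]
  exact Finset.sum_le_sum (fun i _ => abs_add_le _ _)

theorem N1_smul {ι : Type*} [Fintype ι] (r : ℝ) (x : ι → ℝ) : N1 (r • x) = |r| * N1 x := by
  unfold N1
  rw [Finset.mul_sum]
  exact Finset.sum_congr rfl (fun i _ => by simp [abs_mul])

theorem N1_neg {ι : Type*} [Fintype ι] (x : ι → ℝ) : N1 (-x) = N1 x := by
  unfold N1; simp

theorem N1_nonneg {ι : Type*} [Fintype ι] (x : ι → ℝ) : 0 ≤ N1 x :=
  Finset.sum_nonneg (fun _ _ => abs_nonneg _)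

theorem N1_eq_zero {ι : Type*} [Fintype ι] {x : ι → ℝ} (h : N1 x = 0) : x = 0 := by
  unfold N1 at h
  rw [Finset.sum_eq_zero_iff_of_nonneg (fun _ _ => abs_nonneg _)] at h
  ext i
  exact abs_eq_zero.1 (h i (Finset.mem_univ i))

variable {m : ℕ}

abbrev EE (m : ℕ) := EuclideanSpace ℝ (Fin m)

/-- the linear map `w ↦ ∑ w_k b_k`, in plain coordinates. -/
noncomputable def Ps (b : OrthonormalBasis (Fin (m + 1)) ℝ (EE (m + 1))) :
    (Fin (m + 1) → ℝ) ≃ₗ[ℝ] (Fin (m + 1) → ℝ) :=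
  (WithLp.linearEquiv 2 ℝ (Fin (m + 1) → ℝ)).symm.trans
    (b.repr.symm.toLinearEquiv.trans (WithLp.linearEquiv 2 ℝ (Fin (m + 1) → ℝ)))

theorem Ps_apply (b : OrthonormalBasis (Fin (m + 1)) ℝ (EE (m + 1))) (w : Fin (m + 1) → ℝ) :
    Ps b w = WithLp.ofLp (b.repr.symm (WithLp.toLp 2 w)) := rfl

theorem Ps_inner (b : OrthonormalBasis (Fin (m + 1)) ℝ (EE (m + 1))) (w : Fin (m + 1) → ℝ)
    (k : Fin (m + 1)) : ∑ i, b k i * Ps b w i = w k := by
  have h1 : inner ℝ (b k) (b.repr.symm (WithLp.toLp 2 w)) = w k := by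
    rw [← b.repr_apply_apply]
    simp
  rw [← h1, Ps_apply, PiLp.inner_apply]
  refine Finset.sum_congr rfl (fun i _ => ?_)
  simp [mul_comm]

theorem Ps_norm (b : OrthonormalBasis (Fin (m + 1)) ℝ (EE (m + 1))) (w : Fin (m + 1) → ℝ) :
    WithLp.toLp 2 (Ps b w) = b.repr.symm (WithLp.toLp 2 w) := rfl

/-- as a measure preserving equivalence `ℝ × ℝ^m ≃ ℝ^{m+1}`. -/
noncomputable def Ph (b : OrthonormalBasis (Fin (m + 1)) ℝ (EE (m + 1))) :
    ℝ × (Fin m → ℝ) ≃ᵐ (Fin (m + 1) → ℝ) :=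
  (MeasurableEquiv.piFinSuccAbove (fun _ => ℝ) 0).symm.trans
    ((MeasurableEquiv.toLp 2 (Fin (m + 1) → ℝ)).trans
      (b.repr.symm.toHomeomorph.toMeasurableEquiv.trans
        (MeasurableEquiv.toLp 2 (Fin (m + 1) → ℝ)).symm))

theorem Ph_apply (b : OrthonormalBasis (Fin (m + 1)) ℝ (EE (m + 1))) (p : ℝ × (Fin m → ℝ)) :
    Ph b p = Ps b (Fin.cons p.1 p.2) := by
  have h : (MeasurableEquiv.piFinSuccAbove (fun _ : Fin (m + 1) => ℝ) 0).symm p =
      Fin.cons p.1 p.2 := by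
    rw [MeasurableEquiv.piFinSuccAbove_symm_apply]
    simp [Fin.insertNthEquiv]
  show Ps b ((MeasurableEquiv.piFinSuccAbove (fun _ : Fin (m + 1) => ℝ) 0).symm p) = _
  rw [h]

theorem Ph_mp (b : OrthonormalBasis (Fin (m + 1)) ℝ (EE (m + 1))) :
    MeasurePreserving (Ph b) ((volume : Measure ℝ).prod volume) volume := by
  have h1 := (volume_preserving_piFinSuccAbove (fun _ : Fin (m + 1) => ℝ) 0).symm
  have h2 := PiLp.volume_preserving_toLp (Fin (m + 1))
  have h3 := b.measurePreserving_repr_symm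
  have h4 := PiLp.volume_preserving_ofLp (Fin (m + 1))
  exact ((h4.comp h3).comp h2).comp h1

end Pool.Agent.R755.Xp
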