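import Mathlib
import Pool.Agent.R755.Xp.Vol

open MeasureTheory Set Real
open scoped FourierTransform

namespace Pool.Agent.R755.Xp

variable {m : ℕ}

/-- exponential density on the parametrised space. -/
noncomputable def hh (b : OrthonormalBasis (Fin (m + 1)) ℝ (EE (m + 1))) (τ : ℝ)
    (z : Fin m → ℝ) : ℝ := Real.exp (-N1 (Ps b (Fin.cons τ z)))

theorem Ps_cont (b : OrthonormalBasis (Fin (m + 1)) ℝ (EE (m + 1))) : Continuous (Ps b) :=
  LinearMap.continuous_of_finiteDimensional (Ps b).toLinearMap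

theorem cons_cont : Continuous (fun p : ℝ × (Fin m → ℝ) => (Fin.cons p.1 p.2 : Fin (m + 1) → ℝ)) := by
  refine continuous_pi (fun i => ?_)
  refine Fin.cases ?_ (fun j => ?_) i
  · simpa using continuous_fst
  · simp only [Fin.cons_succ]
    exact (continuous_apply j).comp continuous_snd

theorem hh_cont (b : OrthonormalBasis (Fin (m + 1)) ℝ (EE (m + 1))) :
    Continuous (fun p : ℝ × (Fin m → ℝ) => hh b p.1 p.2) := by
  unfold hh
  exact Real.continuous_exp.comp (N1_cont.comp ((Ps_cont b).comp cons_cont)).neg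

theorem hh_int (b : OrthonormalBasis (Fin (m + 1)) ℝ (EE (m + 1))) :
    Integrable (fun p : ℝ × (Fin m → ℝ) => hh b p.1 p.2)
      ((volume : Measure ℝ).prod (volume : Measure (Fin m → ℝ))) := by
  have h := ((Ph_mp b).integrable_comp_emb (Ph b).measurableEmbedding
    (g := fun x => Real.exp (-∑ i, |x i|))).2 exp_sum_int
  refine h.congr (Filter.Eventually.of_forall (fun p => ?_))
  simp only [Function.comp, Ph_apply]
  rfl

theorem cons_split (τ σ : ℝ) (z : Fin m → ℝ) :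
    (Fin.cons τ z : Fin (m + 1) → ℝ) = Fin.cons σ z + (τ - σ) • (Fin.cons 1 0 : Fin (m + 1) → ℝ) := by
  ext i
  refine Fin.cases ?_ (fun j => ?_) i
  · simp
  · simp

theorem hh_le (b : OrthonormalBasis (Fin (m + 1)) ℝ (EE (m + 1))) (τ σ : ℝ) (z : Fin m → ℝ) :
    hh b τ z ≤ Real.exp (|τ - σ| * N1 (Ps b (Fin.cons 1 0))) * hh b σ z := by
  unfold hh
  rw [← Real.exp_add]
  apply Real.exp_le_exp.2
  have h1 : Ps b (Fin.cons σ z) = Ps b (Fin.cons τ z) + (σ - τ) • Ps b (Fin.cons 1 0) := by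
    rw [cons_split σ τ z, map_add, map_smul]
  have h2 := N1_add (Ps b (Fin.cons τ z)) ((σ - τ) • Ps b (Fin.cons 1 0))
  rw [← h1, N1_smul, abs_sub_comm] at h2
  linarith

theorem hh_pos (b : OrthonormalBasis (Fin (m + 1)) ℝ (EE (m + 1))) (τ : ℝ) (z : Fin m → ℝ) :
    0 < hh b τ z := Real.exp_pos _

theorem hh_slice_cont (b : OrthonormalBasis (Fin (m + 1)) ℝ (EE (m + 1))) (τ : ℝ) :
    Continuous (fun z => hh b τ z) :=
  Continuous.comp (g := fun p : ℝ × (Fin m → ℝ) => hh b p.1 p.2)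
    (f := fun z : Fin m → ℝ => (τ, z)) (hh_cont b) (Continuous.prodMk_right τ)

theorem hh_slice_cont' (b : OrthonormalBasis (Fin (m + 1)) ℝ (EE (m + 1))) (z : Fin m → ℝ) :
    Continuous (fun τ => hh b τ z) :=
  Continuous.comp (g := fun p : ℝ × (Fin m → ℝ) => hh b p.1 p.2)
    (f := fun τ : ℝ => (τ, z)) (hh_cont b) (Continuous.prodMk_left z)

theorem hh_slice_int (b : OrthonormalBasis (Fin (m + 1)) ℝ (EE (m + 1))) (τ : ℝ) :
    Integrable (hh b τ) := by
  obtain ⟨σ, hσ⟩ := (hh_int b).prod_right_ae.exists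
  refine Integrable.mono' (hσ.const_mul (Real.exp (|τ - σ| * N1 (Ps b (Fin.cons 1 0)))))
    (hh_slice_cont b τ).aestronglyMeasurable (Filter.Eventually.of_forall (fun z => ?_))
  rw [Real.norm_eq_abs, abs_of_pos (hh_pos b τ z)]
  exact hh_le b τ σ z

noncomputable def ph (b : OrthonormalBasis (Fin (m + 1)) ℝ (EE (m + 1))) (τ : ℝ) : ℝ :=
  ∫ z, hh b τ z

theorem ph_int (b : OrthonormalBasis (Fin (m + 1)) ℝ (EE (m + 1))) : Integrable (ph b) :=
  (hh_int b).integral_prod_left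

theorem ph_contAt (b : OrthonormalBasis (Fin (m + 1)) ℝ (EE (m + 1))) : ContinuousAt (ph b) 0 := by
  unfold ph
  refine continuousAt_of_dominated
    (bound := fun z => Real.exp (N1 (Ps b (Fin.cons 1 0))) * hh b 0 z)
    (Filter.Eventually.of_forall (fun τ => (hh_slice_cont b τ).aestronglyMeasurable)) ?_
    ((hh_slice_int b 0).const_mul _) ?_
  · have hn : Icc (-1:ℝ) 1 ∈ nhds (0:ℝ) := Icc_mem_nhds (by norm_num) (by norm_num)
    filter_upwards [hn] with τ hτ
    refine Filter.Eventually.of_forall (fun z => ?_)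
    rw [Real.norm_eq_abs, abs_of_pos (hh_pos b τ z)]
    refine (hh_le b τ 0 z).trans ?_
    refine mul_le_mul_of_nonneg_right (Real.exp_le_exp.2 ?_) (hh_pos b 0 z).le
    have h1 : |τ - 0| ≤ 1 := by rw [sub_zero, abs_le]; exact hτ
    have h2 := N1_nonneg (Ps b (Fin.cons 1 0))
    calc |τ - 0| * N1 (Ps b (Fin.cons 1 0)) ≤ 1 * N1 (Ps b (Fin.cons 1 0)) := by gcongr
      _ = _ := one_mul _
  · refine Filter.Eventually.of_forall (fun z => ?_)
    exact (hh_slice_cont' b z).continuousAt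

theorem P_even (a : Fin (m + 1) → ℝ) (s : ℝ) : P a |s| = P a s := by
  unfold P f
  simp only [sq_abs]

theorem P_int_all {a : Fin (m + 1) → ℝ} (h : ∑ i, a i ^ 2 = 1) : Integrable (P a) := by
  refine Integrable.mono' integrable_inv_one_add_sq (P_cont a).aestronglyMeasurable
    (Filter.Eventually.of_forall (fun s => ?_))
  rw [Real.norm_eq_abs, abs_of_pos (P_pos a s)]
  have := P_le a s
  rwa [h, one_mul] at this

theorem P_int_eq {a : Fin (m + 1) → ℝ} : ∫ s, P a s = 2 * I a := by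
  have := integral_comp_abs (f := P a)
  simp only [P_even] at this
  exact this

theorem fourier_ph (b : OrthonormalBasis (Fin (m + 1)) ℝ (EE (m + 1))) (ξ : ℝ) :
    𝓕 (fun τ => ((ph b τ : ℝ) : ℂ)) ξ =
      ((2 ^ (m + 1) * P (fun i => b 0 i) (2 * π * ξ) : ℝ) : ℂ) := by
  rw [Real.fourier_real_eq_integral_exp_smul]
  have h1 : ∀ τ : ℝ, Complex.exp (↑(-2 * π * τ * ξ) * Complex.I) • ((ph b τ : ℝ) : ℂ) =
      ∫ z, Complex.exp (↑(-2 * π * τ * ξ) * Complex.I) * ((hh b τ z : ℝ) : ℂ) := by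
    intro τ
    unfold ph
    rw [smul_eq_mul, integral_const_mul]
    congr 1
    exact integral_ofReal.symm
  simp only [h1]
  have h2 : Integrable (fun p : ℝ × (Fin m → ℝ) =>
      Complex.exp (↑(-2 * π * p.1 * ξ) * Complex.I) * ((hh b p.1 p.2 : ℝ) : ℂ))
      ((volume : Measure ℝ).prod (volume : Measure (Fin m → ℝ))) := by
    refine Integrable.mono' (hh_int b) ?_ (Filter.Eventually.of_forall (fun p => ?_))
    · have := hh_cont b
      exact (by fun_prop : Continuous fun p : ℝ × (Fin m → ℝ) =>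
        Complex.exp (↑(-2 * π * p.1 * ξ) * Complex.I) *
          ((hh b p.1 p.2 : ℝ) : ℂ)).aestronglyMeasurable
    · rw [norm_mul, Complex.norm_exp_ofReal_mul_I, one_mul, Complex.norm_real, Real.norm_eq_abs,
        abs_of_pos (hh_pos _ _ _)]
  rw [← integral_prod (fun p : ℝ × (Fin m → ℝ) =>
      Complex.exp (↑(-2 * π * p.1 * ξ) * Complex.I) * ((hh b p.1 p.2 : ℝ) : ℂ)) h2]
  have h3 := charN (fun i : Fin (m + 1) => -2 * π * ξ * b 0 i)
  rw [← (Ph_mp b).integral_comp (Ph b).measurableEmbedding] at h3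
  have h4 : ∀ p : ℝ × (Fin m → ℝ),
      Complex.exp (((∑ i, -2 * π * ξ * b 0 i * Ph b p i : ℝ) : ℂ) * Complex.I) *
        ((Real.exp (-∑ i, |Ph b p i|) : ℝ) : ℂ) =
      Complex.exp (↑(-2 * π * p.1 * ξ) * Complex.I) * ((hh b p.1 p.2 : ℝ) : ℂ) := by
    intro p
    have e1 : ∑ i, -2 * π * ξ * b 0 i * Ph b p i = -2 * π * p.1 * ξ := by
      have e2 := Ps_inner b (Fin.cons p.1 p.2) 0
      rw [Fin.cons_zero] at e2
      rw [Ph_apply]
      calc ∑ i, -2 * π * ξ * b 0 i * Ps b (Fin.cons p.1 p.2) i =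
          -2 * π * ξ * ∑ i, b 0 i * Ps b (Fin.cons p.1 p.2) i := by
            rw [Finset.mul_sum]
            exact Finset.sum_congr rfl (fun i _ => by ring)
        _ = _ := by rw [e2]; ring
    rw [e1, Ph_apply]
    rfl
  simp only [h4] at h3
  rw [h3]
  congr 1
  unfold P f
  rw [Finset.prod_mul_distrib, Finset.prod_const, Finset.card_univ, Fintype.card_fin]
  congr 1
  refine Finset.prod_congr rfl (fun i _ => ?_)
  congr 1
  ring

theorem ph_zero (b : OrthonormalBasis (Fin (m + 1)) ℝ (EE (m + 1))) :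
    ph b 0 = 2 ^ (m + 1) / π * I (fun i => b 0 i) := by
  have hunit : ∑ i, (b 0 i) ^ 2 = 1 := by
    have h := b.orthonormal.1 0
    have h2 := EuclideanSpace.real_norm_sq_eq (b 0)
    rw [h, one_pow] at h2
    exact h2.symm
  have hF : 𝓕 (fun τ => ((ph b τ : ℝ) : ℂ)) =
      fun ξ => ((2 ^ (m + 1) * P (fun i => b 0 i) (2 * π * ξ) : ℝ) : ℂ) :=
    funext (fourier_ph b)
  have hi : Integrable (fun τ => ((ph b τ : ℝ) : ℂ)) := (ph_int b).ofReal
  have hp : (2 * π) ≠ 0 := by positivity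
  have hi2 : Integrable (fun ξ => 2 ^ (m + 1) * P (fun i => b 0 i) (2 * π * ξ)) :=
    ((P_int_all hunit).comp_mul_left' hp).const_mul _
  have hiF : Integrable (𝓕 (fun τ => ((ph b τ : ℝ) : ℂ))) := by
    rw [hF]; exact hi2.ofReal
  have hc : ContinuousAt (fun τ => ((ph b τ : ℝ) : ℂ)) 0 :=
    Complex.continuous_ofReal.continuousAt.comp (ph_contAt b)
  have h := hi.fourierInv_fourier_eq hiF hc
  rw [Real.fourierInv_eq'] at h
  simp only [inner_zero_right, mul_zero, Complex.ofReal_zero, zero_mul, Complex.exp_zero,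
    one_smul] at h
  rw [hF, integral_complex_ofReal, integral_const_mul] at h
  have h2 := Measure.integral_comp_mul_left (P fun i => b 0 i) (2 * π)
  rw [h2, P_int_eq, smul_eq_mul, abs_of_pos (by positivity)] at h
  have h3 : 2 ^ (m + 1) * ((2 * π)⁻¹ * (2 * I fun i => b 0 i)) = ph b 0 := by
    exact_mod_cast h
  rw [← h3]
  field_simp

end Pool.Agent.R755.Xp
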