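import Mathlib
import Pool.Agent.R755.Xp.Vol2

open MeasureTheory Set Real

namespace Pool.Agent.R755.Xp

variable {m : ℕ}

/-- the isometric parametrisation of the hyperplane `b_0^⊥`. -/
noncomputable def lo (b : OrthonormalBasis (Fin (m + 1)) ℝ (EE (m + 1))) (z : EE m) : EE (m + 1) :=
  b.repr.symm (WithLp.toLp 2 (Fin.cons 0 (WithLp.ofLp z)))

theorem lo_isometry (b : OrthonormalBasis (Fin (m + 1)) ℝ (EE (m + 1))) : Isometry (lo b) := by
  have h1 : Isometry (fun z : EE m =>
      (WithLp.toLp 2 (Fin.cons 0 (WithLp.ofLp z) : Fin (m + 1) → ℝ) : EE (m + 1))) := by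
    refine Isometry.of_dist_eq (fun x y => ?_)
    rw [EuclideanSpace.dist_eq, EuclideanSpace.dist_eq, Fin.sum_univ_succ]
    simp
  exact b.repr.symm.isometry.comp h1

/-- `(n-1)`-dimensional volume of the section of the cross-polytope by `a^⊥`. -/
noncomputable def V (n : ℕ) (a : EuclideanSpace ℝ (Fin n)) : ENNReal :=
  μHE[n - 1] {x : EuclideanSpace ℝ (Fin n) | ∑ i, |x i| ≤ 1 ∧ ∑ i, a i * x i = 0}

theorem V_eq_vol (b : OrthonormalBasis (Fin (m + 1)) ℝ (EE (m + 1))) :
    V (m + 1) (b 0) = volume {z : Fin m → ℝ | N1 (Ps b (Fin.cons 0 z)) ≤ 1} := by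
  have h1 : {x : EE (m + 1) | ∑ i, |x i| ≤ 1 ∧ ∑ i, b 0 i * x i = 0} =
      lo b '' {z : EE m | N1 (Ps b (Fin.cons 0 (WithLp.ofLp z))) ≤ 1} := by
    ext x
    simp only [mem_ofPred_eq, mem_image]
    constructor
    · rintro ⟨hx, hx0⟩
      have e0 : (b.repr x) 0 = 0 := by
        rw [b.repr_apply_apply, PiLp.inner_apply, ← hx0]
        exact Finset.sum_congr rfl (fun i _ => by simp [mul_comm])
      have e1 : (Fin.cons 0 (fun i => (b.repr x) (Fin.succ i)) : Fin (m + 1) → ℝ) =
          WithLp.ofLp (b.repr x) := by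
        ext i
        refine Fin.cases ?_ (fun j => ?_) i
        · simp [e0]
        · simp
      refine ⟨WithLp.toLp 2 (fun i => (b.repr x) (Fin.succ i)), ?_, ?_⟩
      · rw [e1, Ps_apply]
        simpa [N1] using hx
      · unfold lo
        rw [e1]
        simp
    · rintro ⟨z, hz, rfl⟩
      refine ⟨hz, ?_⟩
      exact Ps_inner b (Fin.cons 0 (WithLp.ofLp z)) 0
  unfold V
  rw [h1, Nat.add_sub_cancel, (lo_isometry b).euclideanHausdorffMeasure_image,
    EuclideanSpace.euclideanHausdorffMeasure_eq_volume]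
  have hcl : IsClosed {z : Fin m → ℝ | N1 (Ps b (Fin.cons 0 z)) ≤ 1} := by
    have hc : Continuous fun z : Fin m → ℝ => (Fin.cons 0 z : Fin (m + 1) → ℝ) :=
      Continuous.comp (g := fun p : ℝ × (Fin m → ℝ) => (Fin.cons p.1 p.2 : Fin (m + 1) → ℝ))
        (f := fun z : Fin m → ℝ => ((0:ℝ), z)) cons_cont (Continuous.prodMk_right 0)
    exact isClosed_le (N1_cont.comp ((Ps_cont b).comp hc)) continuous_const
  exact (PiLp.volume_preserving_ofLp (Fin m)).measure_preimage hcl.measurableSet.nullMeasurableSet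

theorem vol_formula (hm : 1 ≤ m) (b : OrthonormalBasis (Fin (m + 1)) ℝ (EE (m + 1))) :
    volume {z : Fin m → ℝ | N1 (Ps b (Fin.cons 0 z)) ≤ 1} =
      ENNReal.ofReal (ph b 0 / Real.Gamma (m + 1)) := by
  have : Nonempty (Fin m) := ⟨⟨0, hm⟩⟩
  set L : (Fin m → ℝ) →ₗ[ℝ] (Fin (m + 1) → ℝ) :=
    { toFun := fun z => Ps b (Fin.cons 0 z)
      map_add' := by
        intro x y
        rw [← map_add]
        congr 1
        ext i
        refine Fin.cases ?_ (fun j => ?_) i <;> simp
      map_smul' := by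
        intro r x
        rw [RingHom.id_apply, ← map_smul]
        congr 1
        ext i
        refine Fin.cases ?_ (fun j => ?_) i <;> simp } with hL
  have hLa : ∀ z, L z = Ps b (Fin.cons 0 z) := fun z => rfl
  set g : (Fin m → ℝ) → ℝ := fun z => N1 (L z) with hg
  have h1 : g 0 = 0 := by
    simp [hg, N1]
  have h2 : ∀ x, g (-x) = g x := by
    intro x; simp only [hg, map_neg, N1_neg]
  have h3 : ∀ x y, g (x + y) ≤ g x + g y := by
    intro x y; simp only [hg, map_add]; exact N1_add _ _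
  have h4 : ∀ {x}, g x = 0 → x = 0 := by
    intro x hx
    have e1 := N1_eq_zero hx
    rw [hLa] at e1
    have e2 := (Ps b).map_eq_zero_iff.1 e1
    ext i
    have := congrFun e2 (Fin.succ i)
    simpa using this
  have h5 : ∀ r x, g (r • x) ≤ |r| * g x := by
    intro r x
    simp only [hg, map_smul]
    exact (N1_smul r (L x)).le
  have e1 := measure_le_eq_lt (volume : Measure (Fin m → ℝ)) (g := g) h1 h2 h3 h4 h5 1
  have e2 := measure_lt_one_eq_integral_div_gamma (volume : Measure (Fin m → ℝ)) (g := g)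
    h1 h2 h3 h4 h5 (p := 1) one_pos
  have e3 : {z : Fin m → ℝ | N1 (Ps b (Fin.cons 0 z)) ≤ 1} = {z | g z ≤ 1} := rfl
  rw [e3, e1, e2]
  congr 2
  · unfold ph hh
    congr 1
    ext z
    rw [Real.rpow_one]
    rfl
  · rw [div_one]
    simp

/-- the section formula. -/
theorem V_formula {n : ℕ} (hn : 2 ≤ n) {a : EuclideanSpace ℝ (Fin n)} (ha : ‖a‖ = 1) :
    V n a = ENNReal.ofReal (2 ^ n / π * I (fun i => a i) / Real.Gamma ((n - 1 : ℕ) + 1)) := by
  obtain ⟨m, rfl⟩ : ∃ m, n = m + 1 := ⟨n - 1, by omega⟩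
  have hon : Orthonormal ℝ (({0} : Set (Fin (m + 1))).domRestrict fun _ => a) := by
    constructor
    · rintro ⟨i, hi⟩
      exact ha
    · rintro ⟨i, hi⟩ ⟨j, hj⟩ hij
      exfalso
      apply hij
      rw [mem_singleton_iff] at hi hj
      subst hi; subst hj
      rfl
  obtain ⟨b, hb⟩ := hon.exists_orthonormalBasis_extension_of_card_eq (by simp)
  have hb0 : b 0 = a := hb 0 rfl
  rw [← hb0, V_eq_vol, vol_formula (by omega), ph_zero, Nat.add_sub_cancel]

end Pool.Agent.R755.Xp
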